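import Pool.Agent.Q59.TP.Pat

/-!
# The number of the families with a pattern
-/

namespace Pool.Agent.Q59.TP

open Finset

section

variable {m : ℕ} [NeZero m]

lemma card_sol_le {b : ℕ} (hb : 0 < b) (c : ZMod m) :
    (univ.filter fun y : ZMod m => (b : ZMod m) * y = c).card ≤ b := by
  have hm : 0 < m := NeZero.pos m
  have key : ∀ y : ZMod m, (b : ZMod m) * y = c → b * y.val = m * ((b * y.val) / m) + c.val := by
    intro y hy
    have h1 : (b * y.val) % m = c.val := by
      rw [← hy]
      conv_rhs => rw [← ZMod.natCast_zmod_val y]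
      rw [← Nat.cast_mul, ZMod.val_natCast]
    rw [← h1]
    exact (Nat.div_add_mod _ _).symm
  calc (univ.filter fun y : ZMod m => (b : ZMod m) * y = c).card
      ≤ (range b).card := by
        refine card_le_card_of_injOn (fun y => (b * y.val) / m) ?_ ?_
        · intro y _
          have h1 : b * y.val < b * m := by
            exact Nat.mul_lt_mul_of_pos_left (ZMod.val_lt y) hb
          have h2 : (b * y.val) / m < b := by
            rw [Nat.div_lt_iff_lt_mul hm]
            exact h1
          simpa using h2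
        · intro y hy y' hy' h
          have h1 := key y (mem_filter.mp hy).2
          have h2 := key y' (mem_filter.mp hy').2
          simp only at h
          rw [h] at h1
          apply ZMod.val_injective m
          exact Nat.eq_of_mul_eq_mul_left hb (h1.trans h2.symm)
    _ = b := card_range b

open Classical in
/-- the residues killed by a small number -/
noncomputable def KS (m H : ℕ) [NeZero m] : Finset (ZMod m) :=
  univ.filter fun y => ∃ b, 0 < b ∧ b ≤ H ∧ (b : ZMod m) * y = 0

open Classical in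
/-- the linked residues -/
noncomputable def NS (p f H : ℕ) (x : ZMod m) : Finset (ZMod m) :=
  univ.filter fun y => Near p f H x y

open Classical in
/-- the supersingular residues -/
noncomputable def SSet (p f m : ℕ) [NeZero m] : Finset (ZMod m) :=
  univ.filter fun y => SSr p f y

lemma card_KS_le (H : ℕ) : (KS m H).card ≤ (H + 1) * H := by
  classical
  have h1 : KS m H ⊆ (Icc 1 H).biUnion fun b => univ.filter fun y : ZMod m => (b : ZMod m) * y = 0 := by
    intro y hy
    obtain ⟨-, b, h1, h2, h3⟩ := mem_filter.mp hy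
    exact mem_biUnion.mpr ⟨b, mem_Icc.mpr ⟨h1, h2⟩, mem_filter.mpr ⟨mem_univ _, h3⟩⟩
  refine (card_le_card h1).trans ((card_biUnion_le_card_mul _ _ H fun b hb => ?_).trans ?_)
  · obtain ⟨h2, h3⟩ := mem_Icc.mp hb
    exact (card_sol_le h2 0).trans h3
  · rw [Nat.card_Icc]
    exact Nat.mul_le_mul_right _ (by omega)

lemma card_NS_le (p f H : ℕ) (x : ZMod m) :
    (NS p f H x).card ≤ (2 * H + 1) * H * f * H := by
  classical
  have h1 : NS p f H x ⊆ ((Icc (-(H : ℤ)) H) ×ˢ (Icc 1 H) ×ˢ (range f)).biUnion fun q =>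
      univ.filter fun y : ZMod m => ((q.2.1 : ℕ) : ZMod m) * y = (q.1 : ZMod m) * ((p : ZMod m) ^ q.2.2 * x) := by
    intro y hy
    obtain ⟨-, a, b, e, h1, h2, h3, h4, h5⟩ := mem_filter.mp hy
    refine mem_biUnion.mpr ⟨(a, b, e), ?_, mem_filter.mpr ⟨mem_univ _, h5⟩⟩
    rw [mem_product, mem_product, mem_Icc, mem_Icc, mem_range]
    refine ⟨⟨?_, ?_⟩, ⟨h2, h3⟩, h4⟩ <;> simp only <;> omega
  refine (card_le_card h1).trans ((card_biUnion_le_card_mul _ _ H fun q hq => ?_).trans ?_)
  · rw [mem_product, mem_product, mem_Icc, mem_Icc, mem_range] at hq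
    exact (card_sol_le hq.2.1.1 _).trans hq.2.1.2
  · rw [card_product, card_product, Int.card_Icc, Nat.card_Icc, card_range]
    apply le_of_eq
    have h2 : ((H : ℤ) + 1 - -(H : ℤ)).toNat = 2 * H + 1 := by omega
    have h3 : H + 1 - 1 = H := by omega
    rw [h2, h3]
    ring

end

section

variable {m : ℕ} [NeZero m] {J : Type*} [Fintype J] [DecidableEq J]

omit [NeZero m] in
lemma card_le_of_cover {S V : Finset (J → ZMod m)} {N : J → (J → ZMod m) → Finset (ZMod m)} {B : ℕ}
    (hN : ∀ j v, (N j v).card ≤ B) (h : ∀ s ∈ S, ∃ v ∈ V, ∀ j, s j ∈ N j v) :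
    S.card ≤ V.card * B ^ Fintype.card J := by
  classical
  have h1 : S ⊆ V.biUnion fun v => Fintype.piFinset fun j => N j v := by
    intro s hs
    obtain ⟨v, hv, hj⟩ := h s hs
    exact mem_biUnion.mpr ⟨v, hv, Fintype.mem_piFinset.mpr hj⟩
  refine (card_le_card h1).trans (card_biUnion_le_card_mul _ _ _ fun v _ => ?_)
  rw [Fintype.card_piFinset]
  refine (prod_le_prod (fun _ _ => Nat.zero_le _) fun j _ => hN j v).trans ?_
  rw [prod_const, card_univ]

/-- the bound for the number of choices -/
def BB (f H : ℕ) : ℕ := (2 * H + 1) * H * f * H + (H + 1) * H + 1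

omit [NeZero m] in
lemma card_pi {R2 R1 : Finset J} (hd : Disjoint R2 R1) (A B : Finset (ZMod m)) :
    (Fintype.piFinset fun j => if j ∈ R2 then A else if j ∈ R1 then B else {0}).card =
      A.card ^ R2.card * B.card ^ R1.card := by
  rw [Fintype.card_piFinset]
  have h1 : ∀ j : J, (if j ∈ R2 then A else if j ∈ R1 then B else {0}).card =
      (if j ∈ R2 then A.card else 1) * (if j ∈ R1 then B.card else 1) := by
    intro j
    by_cases h2 : j ∈ R2
    · rw [if_pos h2, if_pos h2, if_neg (disjoint_left.mp hd h2), mul_one]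
    · rw [if_neg h2, if_neg h2, one_mul]
      by_cases h3 : j ∈ R1
      · rw [if_pos h3, if_pos h3]
      · rw [if_neg h3, if_neg h3, card_singleton]
  rw [prod_congr rfl fun j _ => h1 j, prod_mul_distrib, prod_ite_mem, prod_ite_mem, univ_inter,
    univ_inter, prod_const, prod_const]

lemma disj {T : Finset J} {ρ : J → J} : Disjoint (R2 T ρ) (R1 T ρ) := by
  rw [disjoint_left]
  intro j h4 h3
  obtain ⟨j', h5, h6, h7⟩ := (mem_filter.mp h4).2.2.2
  exact h7 ((mem_filter.mp h3).2.2.2 j' h5 h6)

lemma mem_or {T : Finset J} {ρ : J → J} {j : J} (hj : j ∉ T) (h : ρ j = j) :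
    j ∈ R1 T ρ ∨ j ∈ R2 T ρ := by
  by_cases h1 : ∀ j' ∉ T, ρ j' = j → j' = j
  · exact Or.inl (mem_filter.mpr ⟨mem_univ _, hj, h, h1⟩)
  · push Not at h1
    exact Or.inr (mem_filter.mpr ⟨mem_univ _, hj, h, h1⟩)

omit [NeZero m] in
lemma mem_R2 {p f H : ℕ} {s : J → ZMod m} {T : Finset J} {ρ : J → J} (hp : Pat p f H s T ρ) {j : J}
    (hj : j ∉ T) (h : ρ j ≠ j) : ρ j ∈ R2 T ρ :=
  mem_filter.mpr ⟨mem_univ _, hp.out j hj, hp.idem j hj, j, hj, rfl, h.symm⟩

open Classical in
/-- **The number of the families with a pattern.** -/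
theorem card_pat_le (p f H : ℕ) (T : Finset J) (ρ : J → J) :
    (univ.filter fun s : J → ZMod m => Pat p f H s T ρ ∧ ∑ j, s j = 0).card ≤
      m ^ (R2 T ρ).card * (SSet p f m).card ^ ((R1 T ρ).card - 1) * BB f H ^ Fintype.card J := by
  have hmcard : (univ : Finset (ZMod m)).card = m := by rw [card_univ, ZMod.card]
  have hNS : ∀ x : ZMod m, (NS p f H x).card ≤ BB f H := fun x =>
    (card_NS_le p f H x).trans (by unfold BB; omega)
  have hKS : (KS m H).card ≤ BB f H := (card_KS_le H).trans (by unfold BB; omega)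
  have hBB : 1 ≤ BB f H := by unfold BB; omega
  rcases (R1 T ρ).eq_empty_or_nonempty with h1 | ⟨j0, hj0⟩
  · -- no singletons
    rw [h1, card_empty, Nat.zero_sub, pow_zero, mul_one]
    have hV := card_pi (m := m) (R2 := R2 T ρ) (R1 := ∅) (disjoint_empty_right _) univ univ
    rw [card_empty, pow_zero, mul_one, hmcard] at hV
    rw [← hV]
    refine card_le_of_cover (N := fun j v => if j ∈ T then KS m H else if ρ j = j then {v j}
      else NS p f H (v (ρ j))) ?_ ?_
    · intro j v
      split_ifs
      · exact hKS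
      · rw [card_singleton]; exact hBB
      · exact hNS _
    · intro s hs
      obtain ⟨-, hp, -⟩ := mem_filter.mp hs
      refine ⟨fun j => if j ∈ R2 T ρ then s j else 0, ?_, fun j => ?_⟩
      · rw [Fintype.mem_piFinset]
        intro j
        by_cases hj : j ∈ R2 T ρ
        · rw [if_pos hj, if_pos hj]; exact mem_univ _
        · rw [if_neg hj, if_neg hj, if_neg (notMem_empty j)]; exact mem_singleton_self _
      · simp only
        by_cases hjT : j ∈ T
        · rw [if_pos hjT]
          exact mem_filter.mpr ⟨mem_univ _, hp.const j hjT⟩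
        · rw [if_neg hjT]
          by_cases hr : ρ j = j
          · rw [if_pos hr]
            have h2 : j ∈ R2 T ρ := by
              rcases mem_or hjT hr with h | h
              · rw [h1] at h; exact absurd h (notMem_empty j)
              · exact h
            rw [if_pos h2]
            exact mem_singleton_self _
          · rw [if_neg hr, if_pos (mem_R2 hp hjT hr)]
            exact mem_filter.mpr ⟨mem_univ _, hp.near j hjT⟩
  · -- one singleton is determined by the others
    set S := univ.filter fun s : J → ZMod m => Pat p f H s T ρ ∧ ∑ j, s j = 0 with hS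
    have hinj : Set.InjOn (fun s : J → ZMod m => Function.update s j0 0) (S : Set (J → ZMod m)) := by
      intro s hs s' hs' h
      have hs := (mem_filter.mp (mem_coe.mp hs)).2.2
      have hs' := (mem_filter.mp (mem_coe.mp hs')).2.2
      have h2 : ∀ j, j ≠ j0 → s j = s' j := by
        intro j hj
        have := congrFun h j
        simp only [Function.update_of_ne hj] at this
        exact this
      funext j
      by_cases hj : j = j0
      · subst hj
        rw [← add_sum_erase univ _ (mem_univ j)] at hs hs'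
        rw [sum_congr rfl fun i hi => h2 i (ne_of_mem_erase hi)] at hs
        exact add_right_cancel (hs.trans hs'.symm)
      · exact h2 j hj
    rw [← card_image_of_injOn hinj]
    have hdis : Disjoint (R2 T ρ) ((R1 T ρ).erase j0) :=
      disj.mono_right (erase_subset _ _)
    have hV := card_pi (m := m) hdis univ (SSet p f m)
    rw [card_erase_of_mem hj0, hmcard] at hV
    rw [← hV]
    refine card_le_of_cover (N := fun j v => if j = j0 then {0} else if j ∈ T then KS m H
      else if ρ j = j then {v j} else NS p f H (v (ρ j))) ?_ ?_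
    · intro j v
      split_ifs
      · rw [card_singleton]; exact hBB
      · exact hKS
      · rw [card_singleton]; exact hBB
      · exact hNS _
    · intro s' hs'
      obtain ⟨s, hs, rfl⟩ := mem_image.mp hs'
      obtain ⟨-, hp, -⟩ := mem_filter.mp hs
      refine ⟨fun j => if j ∈ R2 T ρ then s j else if j ∈ (R1 T ρ).erase j0 then s j else 0, ?_,
        fun j => ?_⟩
      · rw [Fintype.mem_piFinset]
        intro j
        by_cases hj : j ∈ R2 T ρ
        · rw [if_pos hj, if_pos hj]; exact mem_univ _
        · rw [if_neg hj, if_neg hj]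
          by_cases hj' : j ∈ (R1 T ρ).erase j0
          · rw [if_pos hj', if_pos hj']
            obtain ⟨-, h3, h4, h5⟩ := mem_filter.mp (mem_of_mem_erase hj')
            refine mem_filter.mpr ⟨mem_univ _, hp.single j h3 fun j' hj1 h6 => ?_⟩
            exact h5 j' hj1 (h6.trans h4)
          · rw [if_neg hj', if_neg hj']; exact mem_singleton_self _
      · simp only
        by_cases hjj : j = j0
        · subst hjj
          rw [if_pos rfl, Function.update_self]
          exact mem_singleton_self _
        rw [if_neg hjj, Function.update_of_ne hjj]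
        by_cases hjT : j ∈ T
        · rw [if_pos hjT]
          exact mem_filter.mpr ⟨mem_univ _, hp.const j hjT⟩
        · rw [if_neg hjT]
          by_cases hr : ρ j = j
          · rw [if_pos hr]
            rcases mem_or hjT hr with h | h
            · rw [if_neg (disjoint_right.mp disj h), if_pos (mem_erase.mpr ⟨hjj, h⟩)]
              exact mem_singleton_self _
            · rw [if_pos h]
              exact mem_singleton_self _
          · rw [if_neg hr, if_pos (mem_R2 hp hjT hr)]
            exact mem_filter.mpr ⟨mem_univ _, hp.near j hjT⟩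

lemma one_le_SSet {p f : ℕ} (hf : 0 < f) : 1 ≤ (SSet p f m).card := by
  classical
  exact card_pos.mpr ⟨0, mem_filter.mpr ⟨mem_univ _, 0, hf, by simp⟩⟩

lemma numeric {k g a M G : ℕ} (hG : 1 ≤ G) (h : 2 * g + a < 2 * k) :
    M ^ g * G ^ (a - 1) ≤ M ^ (k - 1) + G ^ (2 * k - 2) := by
  have hg : g ≤ k - 1 := by omega
  have ha : a - 1 ≤ 2 * (k - 1 - g) := by omega
  have h1 : G ^ (a - 1) ≤ G ^ (2 * (k - 1 - g)) := Nat.pow_le_pow_right hG ha
  rcases le_total M (G ^ 2) with h2 | h2
  · calc M ^ g * G ^ (a - 1) ≤ (G ^ 2) ^ g * G ^ (2 * (k - 1 - g)) :=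
          Nat.mul_le_mul (Nat.pow_le_pow_left h2 g) h1
      _ = G ^ (2 * k - 2) := by rw [← pow_mul, ← pow_add]; congr 1; omega
      _ ≤ _ := Nat.le_add_left _ _
  · calc M ^ g * G ^ (a - 1) ≤ M ^ g * (G ^ 2) ^ (k - 1 - g) := by
          rw [← pow_mul]; exact Nat.mul_le_mul_left _ h1
      _ ≤ M ^ g * M ^ (k - 1 - g) := Nat.mul_le_mul_left _ (Nat.pow_le_pow_left h2 _)
      _ = M ^ (k - 1) := by rw [← pow_add]; congr 1; omega
      _ ≤ _ := Nat.le_add_right _ _

open Classical in
/-- **The number of the unmatched relations.** -/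
theorem exists_card_le (k f : ℕ) [NeZero f] : ∃ C : ℕ, ∀ (p m : ℕ) [NeZero m],
    (p : ZMod m) ^ f = 1 →
    (univ.filter fun s : Fin (2 * k) → ZMod m => QP.Rel (Y f p s) ∧ ∑ j, s j = 0 ∧
      ¬ Match p f s).card ≤ C * (m ^ (k - 1) + (SSet p f m).card ^ (2 * k - 2)) := by
  obtain ⟨H, hH⟩ := exists_pat (J := Fin (2 * k)) f
  refine ⟨Fintype.card (Finset (Fin (2 * k)) × (Fin (2 * k) → Fin (2 * k))) *
    BB f H ^ (2 * k), fun p m _ hpf => ?_⟩
  have hf : 0 < f := NeZero.pos f
  have h1 : (univ.filter fun s : Fin (2 * k) → ZMod m => QP.Rel (Y f p s) ∧ ∑ j, s j = 0 ∧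
      ¬ Match p f s) ⊆ ((univ : Finset (Finset (Fin (2 * k)) × (Fin (2 * k) → Fin (2 * k)))).filter
        fun q => 2 * (R2 q.1 q.2).card + (R1 q.1 q.2).card < 2 * k).biUnion fun q =>
        univ.filter fun s : Fin (2 * k) → ZMod m => Pat p f H s q.1 q.2 ∧ ∑ j, s j = 0 := by
    intro s hs
    obtain ⟨-, h2, h3, h4⟩ := mem_filter.mp hs
    obtain ⟨T, ρ, h5, h6⟩ := hH p m s hpf h2 h4
    rw [Fintype.card_fin] at h6
    exact mem_biUnion.mpr ⟨(T, ρ), mem_filter.mpr ⟨mem_univ _, h6⟩,
      mem_filter.mpr ⟨mem_univ _, h5, h3⟩⟩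
  refine (card_le_card h1).trans ((card_biUnion_le_card_mul _ _
    ((m ^ (k - 1) + (SSet p f m).card ^ (2 * k - 2)) * BB f H ^ (2 * k)) fun q hq => ?_).trans ?_)
  · have h2 := card_pat_le (m := m) p f H q.1 q.2
    rw [Fintype.card_fin] at h2
    exact h2.trans (Nat.mul_le_mul_right _ (numeric (one_le_SSet hf)
      (mem_filter.mp hq).2))
  · refine (Nat.mul_le_mul_right _ (card_filter_le _ _)).trans ?_
    rw [card_univ]
    apply le_of_eq
    ring

end

end Pool.Agent.Q59.TP
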