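import Pool.Agent.Q59.QP.Struct

/-!
# The limit datum with its classes
-/

namespace Pool.Agent.Q59.TP

open Finset Filter Topology Pool.Agent.Q59.QP

section

variable {ι : Type*} [Fintype ι] {𝒰 : Ultrafilter ℕ}

open Classical in
/-- **The limit datum.** -/
theorem exists_seq (x : ℕ → ι → UnitAddCircle) (hR : ∀ n, Rel (x n)) :
    ∃ (c : ι → ι) (K : ι → ℤ) (σ : ι → UnitAddCircle) (a : ι → ℕ → UnitAddCircle),
      (∀ i, K i = 0 ↔ Tor 𝒰 (fun n => x n i)) ∧ (∀ i j, c i = c j ↔ Link 𝒰 x i j) ∧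
      (∀ i, ∀ᶠ n in (𝒰 : Filter ℕ), x n i = K i • a (c i) n + σ i) ∧
      (∃ L : ℕ, 0 < L ∧ ∀ i, L • σ i = 0) ∧
      ∀ r y, jump (univ.filter fun i => c i = r ∧ K i ≠ 0) K σ y = 0 := by
  classical
  choose m hm hx hrel using hR
  let S : Setoid ι := ⟨Link 𝒰 x, link_equiv x⟩
  set c : ι → ι := fun i => (Quotient.mk S i).out with hc
  have hcL : ∀ i, Link 𝒰 x i (c i) := fun i =>
    (link_equiv x).symm (Quotient.exact (Quotient.out_eq (Quotient.mk S i)))
  have hcc : ∀ i j, Link 𝒰 x i j → c i = c j := by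
    intro i j h
    rw [hc]
    simp only
    rw [Quotient.sound (s := S) h]
  -- the coefficients
  have hpq : ∀ i, ∃ p q : ℤ, p ≠ 0 ∧ Tor 𝒰 (fun n => p • x n i + q • x n (c i)) ∧
      (q = 0 ↔ Tor 𝒰 (fun n => x n i)) := by
    intro i
    by_cases h : Tor 𝒰 (fun n => x n i)
    · refine ⟨1, 0, one_ne_zero, h.congr (Eventually.of_forall fun n => by simp), ?_⟩
      simpa using h
    · obtain ⟨p, q, hp, hq, h1⟩ := hcL i
      exact ⟨p, q, hp, h1, ⟨fun h0 => absurd h0 hq, fun h0 => absurd h0 h⟩⟩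
  choose p q hp hpqT hq0 using hpq
  set P : ℤ := ∏ i, p i with hP
  have hP0 : P ≠ 0 := prod_ne_zero_iff.mpr fun i _ => hp i
  have hpP : ∀ i, ∃ P' : ℤ, P = p i * P' := fun i => dvd_prod_of_mem p (mem_univ i)
  choose P' hP' using hpP
  have hP'0 : ∀ i, P' i ≠ 0 := fun i h => hP0 (by rw [hP' i, h, mul_zero])
  have hdiv : ∀ r n, ∃ y : UnitAddCircle, P • y = x n r := fun r n => exists_div P hP0 _
  choose a ha using hdiv
  set K : ι → ℤ := fun i => -(q i * P' i) with hK
  have hK0 : ∀ i, K i = 0 ↔ Tor 𝒰 (fun n => x n i) := by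
    intro i
    rw [← hq0 i, hK]
    simp [hP'0 i]
  have hres : ∀ i, Tor 𝒰 (fun n => x n i - K i • a (c i) n) := by
    intro i
    refine Tor.of_zsmul (hp i) ((hpqT i).congr (Eventually.of_forall fun n => ?_))
    rw [smul_sub, smul_smul, hK]
    simp only
    rw [← ha (c i) n, smul_smul, sub_eq_add_neg, ← neg_smul]
    congr 2
    rw [hP' i]
    ring
  choose σ hσt hσ using fun i => tor_const (hres i)
  choose Lf hLf hLfσ using hσt
  set L : ℕ := ∏ i, Lf i with hLdef
  have hL0 : 0 < L := prod_pos fun i _ => hLf i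
  have hLσ : ∀ i, L • σ i = 0 := by
    intro i
    obtain ⟨d, hd⟩ := dvd_prod_of_mem Lf (mem_univ i)
    rw [hLdef, hd, mul_comm, mul_nsmul', hLfσ, nsmul_zero]
  have hxe : ∀ i, ∀ᶠ n in (𝒰 : Filter ℕ), x n i = K i • a (c i) n + σ i := by
    intro i
    filter_upwards [hσ i] with n hn
    rw [← hn]
    abel
  -- the modulus
  set m' : ℕ → ℕ := fun n => m n * (L * P.natAbs) with hm'
  have hPpos : 0 < P.natAbs := Int.natAbs_pos.mpr hP0
  have hm'0 : ∀ n, 0 < m' n := fun n => Nat.mul_pos (hm n) (Nat.mul_pos hL0 hPpos)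
  have hLm' : ∀ n, L ∣ m' n := fun n => ⟨m n * P.natAbs, by rw [hm']; ring⟩
  have hx' : ∀ n i, m' n • x n i = 0 := by
    intro n i
    rw [hm']
    simp only
    rw [mul_comm, mul_nsmul', hx, nsmul_zero]
  have hrel' : ∀ n (t : ℕ), t.Coprime (m' n) → ∑ i, sw (t • x n i) = 0 := fun n t ht =>
    hrel n t ht.coprime_mul_right_right
  have ha' : ∀ r n, m' n • a r n = 0 := by
    intro r n
    have h1 : P • (m n • a r n) = 0 := by rw [smul_comm, ha, hx]
    have h2 := QP.natAbs_nsmul_eq_zero.mpr h1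
    rw [hm']
    simp only
    rw [show m n * (L * P.natAbs) = L * (P.natAbs * m n) by ring, mul_nsmul', mul_nsmul', h2,
      nsmul_zero]
  -- the classes
  have hjump : ∀ r y, jump (univ.filter fun i => c i = r ∧ K i ≠ 0) K σ y = 0 := by
    intro r y
    rcases (univ.filter fun i => c i = r ∧ K i ≠ 0).eq_empty_or_nonempty with hemp | ⟨i0, hi0⟩
    · rw [hemp]
      unfold jump
      rw [sum_empty]
    obtain ⟨-, hci0, hKi0⟩ := mem_filter.mp hi0
    have hti0 : ¬ Tor 𝒰 (fun n => x n i0) := fun h => hKi0 ((hK0 i0).mpr h)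
    have hcr : c r = r := by
      rw [← hci0]
      exact (hcc _ _ (hcL i0)).symm
    have htr : ¬ Tor 𝒰 (fun n => x n r) := by
      intro h
      obtain ⟨p1, q1, hp1, hq1, h1⟩ := hcL i0
      rw [hci0] at h1
      apply hti0
      refine Tor.of_zsmul hp1 ((h1.sub (h.zsmul q1)).congr (Eventually.of_forall fun n => ?_))
      simp
    have hta : ¬ Tor 𝒰 (a r) := by
      intro h
      exact htr ((h.zsmul P).congr (Eventually.of_forall fun n => ha r n))
    have hF := fun (M : ℤ) (hM : M ≠ 0) => fourier_vanish (𝒰 := 𝒰) (L := L) hm'0 hLm' hx' hrel'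
      (a := a r) (ha' r) hta (C := univ.filter fun i => c i = r ∧ K i ≠ 0) (k := K) (τ := σ)
      (fun i hi => (mem_filter.mp hi).2.2) (fun i _ => hLσ i)
      (fun i hi => by
        have h1 := hxe i
        rw [(mem_filter.mp hi).2.1] at h1
        exact h1)
      (fun i hi => by
        by_cases hKi : K i = 0
        · left
          refine ⟨σ i, hLσ i, ?_⟩
          filter_upwards [hxe i] with n hn
          rw [hn, hKi, zero_smul, zero_add]
        · right
          have hir : c i ≠ r := fun h => hi (mem_filter.mpr ⟨mem_univ i, h, hKi⟩)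
          have hti : ¬ Tor 𝒰 (fun n => x n i) := fun h => hKi ((hK0 i).mpr h)
          refine ⟨hti, fun p1 q1 hp1 h => ?_⟩
          have h1 : Tor 𝒰 (fun n => (P * p1) • x n i + q1 • x n r) := by
            refine (h.zsmul P).congr (Eventually.of_forall fun n => ?_)
            rw [smul_add, smul_smul, smul_comm P q1, ha]
          by_cases hq1 : q1 = 0
          · subst hq1
            simp only [zero_smul, add_zero] at h1
            exact hti (h1.of_zsmul (mul_ne_zero hP0 hp1))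
          · have h2 : Link 𝒰 x i r := ⟨P * p1, q1, mul_ne_zero hP0 hp1, hq1, h1⟩
            exact hir ((hcc i r h2).trans hcr)) hM
    exact jump_vanish hL0 (fun i hi => (mem_filter.mp hi).2.2) (fun i _ => hLσ i) hF y
  refine ⟨c, K, σ, a, hK0, fun i j => ⟨fun h => ?_, hcc i j⟩, hxe, ⟨L, hL0, hLσ⟩, hjump⟩
  have h1 := hcL i
  rw [h] at h1
  exact (link_equiv x).trans h1 ((link_equiv x).symm (hcL j))

end

end Pool.Agent.Q59.TP
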