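import Pool.Agent.Q59.TP.Cnt
import Pool.Agent.H916T.Tate
import Pool.Agent.Q59.DT.Main

/-!
# Lower bounds for the number of the Tate characters
-/

namespace Pool.Agent.Q59.TP

open Finset Pool.Agent.H916R2
open Pool.Agent.H916T (IsTate W W_neg W_pow_mul isTate_of_W isUnit_p)

/-- the number of the Tate tuples -/
noncomputable def tc (p k m : ℕ) : ℕ :=
  Nat.card {s : Fin (2 * k) → ZMod m // IsTate p m ((univ : Finset (Fin (2 * k))).val.map s)}

/-- the largest of the numbers `gcd (p ^ e + 1, m)`, `e < f` -/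
def hh (f p m : ℕ) : ℕ := (range f).sup fun e => Nat.gcd (p ^ e + 1) m

section

variable {m : ℕ} [NeZero m]

lemma card_ker (n : ℕ) :
    (univ.filter fun x : ZMod m => (n : ZMod m) * x = 0).card = Nat.gcd n m := by
  have hm : 0 < m := NeZero.pos m
  set g := Nat.gcd n m with hg
  have hg0 : 0 < g := Nat.gcd_pos_of_pos_right n hm
  obtain ⟨d, hd⟩ : g ∣ m := Nat.gcd_dvd_right n m
  obtain ⟨n', hn'⟩ : g ∣ n := Nat.gcd_dvd_left n m
  have hd0 : 0 < d := by
    rcases Nat.eq_zero_or_pos d with h | h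
    · rw [h, mul_zero] at hd; omega
    · exact h
  have hcop : Nat.Coprime d n' := by
    have h1 : Nat.gcd (g * n') (g * d) = g := by rw [← hn', ← hd]
    rw [Nat.gcd_mul_left] at h1
    have h2 : Nat.gcd n' d = 1 := by
      apply Nat.eq_of_mul_eq_mul_left hg0
      rw [h1, mul_one]
    exact Nat.Coprime.symm h2
  have key : ∀ x : ℕ, ((n : ZMod m) * (x : ZMod m) = 0 ↔ d ∣ x) := by
    intro x
    rw [← Nat.cast_mul, ZMod.natCast_eq_zero_iff, hn']
    nth_rewrite 1 [hd]
    rw [mul_assoc, Nat.mul_dvd_mul_iff_left hg0]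
    exact ⟨fun h => hcop.dvd_of_dvd_mul_left h, fun h => h.mul_left n'⟩
  rw [← card_range g]
  symm
  refine card_bij (fun i _ => ((i * d : ℕ) : ZMod m)) ?_ ?_ ?_
  · intro i _
    exact mem_filter.mpr ⟨mem_univ _, (key _).mpr (Dvd.intro_left i rfl)⟩
  · intro i hi j hj h
    have h1 : ∀ i ∈ range g, i * d < m := by
      intro i hi
      rw [hd]
      exact Nat.mul_lt_mul_of_pos_right (mem_range.mp hi) hd0
    rw [ZMod.natCast_eq_natCast_iff] at h
    exact Nat.eq_of_mul_eq_mul_right hd0 (Nat.ModEq.eq_of_lt_of_lt h (h1 i hi) (h1 j hj))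
  · intro x hx
    have h1 := (mem_filter.mp hx).2
    rw [← ZMod.natCast_zmod_val x, key] at h1
    obtain ⟨i, hi⟩ := h1
    refine ⟨i, mem_range.mpr ?_, ?_⟩
    · have h2 := ZMod.val_lt x
      rw [hi, hd, mul_comm] at h2
      exact Nat.lt_of_mul_lt_mul_right h2
    · rw [mul_comm, ← hi, ZMod.natCast_zmod_val]

/-- the residues with `p ^ e * x = -x` -/
def He (m p e : ℕ) [NeZero m] : Finset (ZMod m) :=
  univ.filter fun x => (p : ZMod m) ^ e * x = -x

lemma card_He (p e : ℕ) : (He m p e).card = Nat.gcd (p ^ e + 1) m := by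
  rw [← card_ker (m := m)]
  congr 1
  ext x
  unfold He
  rw [mem_filter, mem_filter]
  refine and_congr_right fun _ => ?_
  push_cast
  constructor
  · intro h; linear_combination h
  · intro h; linear_combination h

lemma card_SSet_le (p f : ℕ) : (SSet p f m).card ≤ f * hh f p m := by
  classical
  have h1 : SSet p f m ⊆ (range f).biUnion fun e => He m p e := by
    intro x hx
    obtain ⟨-, e, he, h⟩ := mem_filter.mp hx
    exact mem_biUnion.mpr ⟨e, mem_range.mpr he, mem_filter.mpr ⟨mem_univ _, h⟩⟩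
  refine (card_le_card h1).trans ((card_biUnion_le_card_mul _ _ (hh f p m) fun e he => ?_).trans ?_)
  · rw [card_He]
    exact le_sup (f := fun e => Nat.gcd (p ^ e + 1) m) he
  · rw [card_range]

lemma hodge_tate {p : ℕ} (hp : p.Coprime m) {s : Multiset (ZMod m)} (hs : IsHodge m s) :
    IsTate p m s := by
  refine isTate_of_W hp hs.1 hs.2.1 hs.2.2.1 fun t => ?_
  have h1 : ∀ s : Multiset (ZMod m), (s.map fun a => W p ((t : ZMod m) * a)).sum =
      ∑ j ∈ range (orderOf (p : ZMod m)),
        (s.map fun a => saw ((p : ZMod m) ^ j * ((t : ZMod m) * a))).sum := by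
    intro s
    induction s using Multiset.induction_on with
    | empty => simp
    | cons a s ih =>
      rw [Multiset.map_cons, Multiset.sum_cons, ih]
      unfold W
      rw [← sum_add_distrib]
      exact sum_congr rfl fun j _ => by rw [Multiset.map_cons, Multiset.sum_cons]
  rw [h1]
  refine sum_eq_zero fun j _ => ?_
  have h2 := hs.saw_sum ((isUnit_p hp).unit ^ j * t)
  simp only [Units.val_mul, Units.val_pow_eq_pow_val, IsUnit.unit_spec, mul_assoc] at h2
  exact h2

lemma tc_ge {p : ℕ} (hp : p.Coprime m) (k : ℕ) : (m - 1) ^ k ≤ tc p k m := by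
  refine (Pool.Agent.Q59.DT.hc_ge k).trans ?_
  unfold Pool.Agent.Q59.DT.hc tc
  refine Nat.card_le_card_of_injective (fun s => ⟨s.1, hodge_tate hp s.2⟩) fun a b h => ?_
  have h1 := congrArg Subtype.val h
  exact Subtype.ext h1

lemma W_ss {p f : ℕ} {x : ZMod m} (h : SSr p f x) (t : ZMod m) : W p (t * x) = 0 := by
  obtain ⟨e, -, he⟩ := h
  have h1 := W_pow_mul p e (t * x)
  rw [mul_left_comm, he, mul_neg, W_neg] at h1
  omega

/-- **The tuples of supersingular residues.** -/
theorem tc_ge_ss {p : ℕ} (hp : p.Coprime m) (k e : ℕ) (hk : 1 ≤ k) :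
    ((He m p e).card - 1) ^ (2 * k - 1) - ((He m p e).card - 1) ^ (2 * k - 2) ≤ tc p k m := by
  classical
  obtain ⟨k', rfl⟩ : ∃ k', k = k' + 1 := ⟨k - 1, by omega⟩
  set A := (He m p e).erase 0 with hA
  have h0 : (0 : ZMod m) ∈ He m p e := mem_filter.mpr ⟨mem_univ _, by simp⟩
  have hAc : A.card = (He m p e).card - 1 := card_erase_of_mem h0
  rw [← hAc]
  set n := 2 * k' with hn
  have e1 : 2 * (k' + 1) - 1 = n + 1 := by omega
  have e2 : 2 * (k' + 1) - 2 = n := by omega
  rw [e1, e2]
  set S := Fintype.piFinset fun _ : Fin (n + 1) => A with hS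
  have hSc : S.card = A.card ^ (n + 1) := by
    rw [hS, Fintype.card_piFinset, prod_const, card_univ, Fintype.card_fin]
  have hzero : (S.filter fun v => ∑ i, v i = 0).card ≤ A.card ^ n := by
    have h1 : (Fintype.piFinset fun _ : Fin n => A).card = A.card ^ n := by
      rw [Fintype.card_piFinset, prod_const, card_univ, Fintype.card_fin]
    rw [← h1]
    refine card_le_card_of_injOn (fun v i => v i.succ) ?_ ?_
    · intro v hv
      have h2 := Fintype.mem_piFinset.mp (mem_filter.mp (mem_coe.mp hv)).1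
      exact mem_coe.mpr (Fintype.mem_piFinset.mpr fun i => h2 i.succ)
    · intro v hv w hw h
      have h2 := (mem_filter.mp (mem_coe.mp hv)).2
      have h3 := (mem_filter.mp (mem_coe.mp hw)).2
      rw [Fin.sum_univ_succ] at h2 h3
      have h4 : ∀ i : Fin n, v i.succ = w i.succ := fun i => congrFun h i
      rw [sum_congr rfl fun i _ => h4 i] at h2
      funext i
      refine Fin.cases ?_ h4 i
      exact add_right_cancel (h2.trans h3.symm)
  have hsplit : (S.filter fun v => ∑ i, v i = 0).card + (S.filter fun v => ¬ ∑ i, v i = 0).card =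
      A.card ^ (n + 1) := by
    rw [card_filter_add_card_filter_not, hSc]
  have hle : (S.filter fun v => ¬ ∑ i, v i = 0).card ≤ tc p (k' + 1) m := by
    unfold tc
    rw [Nat.card_eq_fintype_card, Fintype.card_subtype]
    refine card_le_card_of_injOn (fun v => (Fin.cons (-∑ i, v i) v : Fin (n + 1 + 1) → ZMod m)) ?_ ?_
    · intro v hv
      have hv := mem_filter.mp (mem_coe.mp hv)
      have h2 : ∀ i, v i ≠ 0 ∧ v i ∈ He m p e := fun i => mem_erase.mp (Fintype.mem_piFinset.mp hv.1 i)
      have h3 : ∀ i, (Fin.cons (-∑ i, v i) v : Fin (n + 1 + 1) → ZMod m) i ≠ 0 ∧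
          (p : ZMod m) ^ e * (Fin.cons (-∑ i, v i) v : Fin (n + 1 + 1) → ZMod m) i =
            -(Fin.cons (-∑ i, v i) v : Fin (n + 1 + 1) → ZMod m) i := by
        intro i
        refine Fin.cases ?_ (fun i => ?_) i
        · rw [Fin.cons_zero]
          refine ⟨neg_ne_zero.mpr hv.2, ?_⟩
          rw [mul_neg, mul_sum, sum_congr rfl fun i _ => (mem_filter.mp (h2 i).2).2,
            sum_neg_distrib]
        · rw [Fin.cons_succ]
          exact ⟨(h2 i).1, (mem_filter.mp (h2 i).2).2⟩
      refine mem_coe.mpr (mem_filter.mpr ⟨mem_univ _, isTate_of_W hp ?_ ?_ ?_ fun t => ?_⟩)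
      · intro h
        obtain ⟨i, -, hi⟩ := Multiset.mem_map.mp h
        exact (h3 i).1 hi
      · rw [Multiset.card_map]
        change Even (univ : Finset (Fin (2 * (k' + 1)))).card
        rw [card_univ, Fintype.card_fin]
        exact even_two_mul _
      · change ∑ i : Fin (n + 1 + 1), (Fin.cons (-∑ i, v i) v : Fin (n + 1 + 1) → ZMod m) i = 0
        rw [Fin.sum_univ_succ, Fin.cons_zero]
        simp only [Fin.cons_succ]
        exact neg_add_cancel _
      · rw [Multiset.map_map]
        change ∑ i : Fin (n + 1 + 1), W p ((t : ZMod m) *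
          (Fin.cons (-∑ i, v i) v : Fin (n + 1 + 1) → ZMod m) i) = 0
        refine sum_eq_zero fun i _ => W_ss (f := e + 1) ⟨e, Nat.lt_succ_self e, (h3 i).2⟩ _
    · intro v _ w _ h
      exact (Fin.cons_injective2 h).2
  omega

end

end Pool.Agent.Q59.TP
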