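import Pool.Agent.Q59.TP.Datum

/-!
# Limit data of families invariant under the Frobenius
-/

namespace Pool.Agent.Q59.TP

open Finset Filter Topology Pool.Agent.Q59.QP

section dat

variable {ι : Type*} [Fintype ι] {𝒰 : Ultrafilter ℕ}

open Classical in
/-- the limit datum of a sequence -/
structure Dat (𝒰 : Ultrafilter ℕ) (x : ℕ → ι → UnitAddCircle) where
  /-- the class -/
  c : ι → ι
  /-- the multiplicity -/
  K : ι → ℤ
  /-- the translation -/
  σ : ι → UnitAddCircle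
  /-- the parameter -/
  a : ι → ℕ → UnitAddCircle
  /-- the constants -/
  hK : ∀ i, K i = 0 ↔ Tor 𝒰 (fun n => x n i)
  /-- the classes -/
  hc : ∀ i j, c i = c j ↔ Link 𝒰 x i j
  /-- the coset -/
  hx : ∀ i, ∀ᶠ n in (𝒰 : Filter ℕ), x n i = K i • a (c i) n + σ i
  /-- the translations are torsion -/
  hσ : ∃ L : ℕ, 0 < L ∧ ∀ i, L • σ i = 0
  /-- the relations -/
  hj : ∀ r y, jump (univ.filter fun i => c i = r ∧ K i ≠ 0) K σ y = 0

theorem exists_dat (x : ℕ → ι → UnitAddCircle) (hR : ∀ n, Rel (x n)) : Nonempty (Dat 𝒰 x) := by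
  obtain ⟨c, K, σ, a, h1, h2, h3, h4, h5⟩ := exists_seq (𝒰 := 𝒰) x hR
  exact ⟨⟨c, K, σ, a, h1, h2, h3, h4, h5⟩⟩

lemma tor_mul {z : ℕ → UnitAddCircle} (h : Tor 𝒰 z) (Q : ℕ → ℕ) : Tor 𝒰 (fun n => Q n • z n) := by
  obtain ⟨q, hq, h⟩ := h
  refine ⟨q, hq, ?_⟩
  filter_upwards [h] with n hn
  rw [smul_comm, hn, smul_zero]

lemma tor_mulz {z : ℕ → UnitAddCircle} (h : Tor 𝒰 z) (Q : ℕ → ℤ) : Tor 𝒰 (fun n => Q n • z n) := by
  obtain ⟨q, hq, h⟩ := h
  refine ⟨q, hq, ?_⟩
  filter_upwards [h] with n hn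
  rw [smul_comm, hn, smul_zero]

namespace Dat

variable {x : ℕ → ι → UnitAddCircle} (D : Dat 𝒰 x)

open Classical in
/-- the classes -/
noncomputable def cls (r : ι) : Finset ι := univ.filter fun i => D.c i = r ∧ D.K i ≠ 0

lemma mem_cls {r i : ι} : i ∈ D.cls r ↔ D.c i = r ∧ D.K i ≠ 0 := by
  classical
  unfold cls
  simp

lemma jump_cls (r : ι) (y : UnitAddCircle) : jump (D.cls r) D.K D.σ y = 0 := D.hj r y

lemma tor_σ (i : ι) : Tor 𝒰 (fun _ => D.σ i) := by
  obtain ⟨L, hL, h⟩ := D.hσ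
  exact Tor.of_killed hL (h i)

include D in
lemma a_not_tor {i : ι} (hi : D.K i ≠ 0) : ¬ Tor 𝒰 (D.a (D.c i)) := by
  intro h
  apply hi
  rw [D.hK]
  refine ((h.zsmul (D.K i)).add (D.tor_σ i)).congr ?_
  filter_upwards [D.hx i] with n hn
  rw [hn]

lemma opp {i i' : ι} (hc : D.c i = D.c i') (hK : D.K i' = -D.K i) (hσ : D.σ i' = -D.σ i) :
    ∀ᶠ n in (𝒰 : Filter ℕ), x n i' = -x n i := by
  filter_upwards [D.hx i, D.hx i'] with n h1 h2
  rw [h1, h2, hK, hσ, ← hc, neg_smul]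
  abel

lemma opp' {i i' : ι} (hi : D.K i ≠ 0) (h : ∀ᶠ n in (𝒰 : Filter ℕ), x n i' = -x n i) :
    D.c i' = D.c i ∧ D.K i' = -D.K i ∧ D.σ i' = -D.σ i := by
  have hc : D.c i' = D.c i := by
    rw [D.hc]
    refine ⟨1, 1, one_ne_zero, one_ne_zero, 1, one_pos, ?_⟩
    filter_upwards [h] with n hn
    rw [hn]
    simp
  have h1 : ∀ᶠ n in (𝒰 : Filter ℕ), (D.K i' + D.K i) • D.a (D.c i) n + (D.σ i' + D.σ i) = 0 := by
    filter_upwards [h, D.hx i, D.hx i'] with n h1 h2 h3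
    rw [hc] at h3
    have h4 : x n i' + x n i = 0 := by rw [h1]; simp
    rw [h2, h3] at h4
    rw [← h4, add_smul]
    abel
  have h2 : D.K i' + D.K i = 0 := by
    by_contra hne
    apply D.a_not_tor hi
    refine Tor.of_zsmul hne ((((D.tor_σ i').add (D.tor_σ i)).neg).congr ?_)
    filter_upwards [h1] with n hn
    exact (eq_neg_of_add_eq_zero_left hn).symm
  obtain ⟨n, hn⟩ := h1.exists
  rw [h2, zero_smul, zero_add] at hn
  exact ⟨hc, by linarith, eq_neg_of_add_eq_zero_left hn⟩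

end Dat

open Classical in
omit [Fintype ι] in
lemma exists_opp {C : Finset ι} {K : ι → ℤ} {σ : ι → UnitAddCircle} {y : UnitAddCircle}
    (hJ : jump C K σ y = 0) {i : ι} (hi : i ∈ C) (hK : K i ≠ 0) (hy : K i • y + σ i = 0) :
    ∃ i' ∈ C, (K i').sign = -(K i).sign ∧ K i' • y + σ i' = 0 := by
  by_contra hcon
  push Not at hcon
  have hs : (K i).sign * (K i).sign = 1 := by
    rcases lt_or_gt_of_ne hK with h | h
    · rw [Int.sign_eq_neg_one_of_neg h]; rfl
    · rw [Int.sign_eq_one_of_pos h]; rfl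
  have h1 : ∀ i' ∈ C, 0 ≤ (K i).sign * ((K i').sign * (if K i' • y + σ i' = 0 then 1 else 0)) := by
    intro i' hi'
    split_ifs with h
    · have h2 : (K i').sign ≠ -(K i).sign := fun h3 => hcon i' hi' h3 h
      rcases lt_or_gt_of_ne hK with h3 | h3
      · rw [Int.sign_eq_neg_one_of_neg h3] at h2 ⊢
        rcases lt_trichotomy (K i') 0 with h4 | h4 | h4
        · rw [Int.sign_eq_neg_one_of_neg h4]; norm_num
        · rw [h4]; simp
        · rw [Int.sign_eq_one_of_pos h4] at h2; simp at h2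
      · rw [Int.sign_eq_one_of_pos h3] at h2 ⊢
        rcases lt_trichotomy (K i') 0 with h4 | h4 | h4
        · rw [Int.sign_eq_neg_one_of_neg h4] at h2; simp at h2
        · rw [h4]; simp
        · rw [Int.sign_eq_one_of_pos h4]; norm_num
    · simp
  have h2 := single_le_sum h1 hi
  rw [if_pos hy, mul_one, hs, ← mul_sum] at h2
  unfold jump at hJ
  rw [hJ, mul_zero] at h2
  omega

end dat

section orb

variable {f : ℕ} [NeZero f] {J : Type*} [Fintype J]

/-- the Frobenius conjugates of a family -/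
def X (f : ℕ) {J : Type*} (P : ℕ → ℕ) (u : ℕ → J → UnitAddCircle) (n : ℕ) (α : ZMod f × J) :
    UnitAddCircle := (P n ^ α.1.val) • u n α.2

variable {P : ℕ → ℕ} {u : ℕ → J → UnitAddCircle}

omit [NeZero f] [Fintype J] in
lemma pow_mod_smul (hP : ∀ n j, P n ^ f • u n j = u n j) (n : ℕ) (j : J) (b : ℕ) :
    P n ^ (b % f) • u n j = P n ^ b • u n j := by
  conv_rhs => rw [← Nat.mod_add_div b f]
  generalize b / f = q
  induction q with
  | zero => simp
  | succ q ih =>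
    rw [ih, mul_add, mul_one, ← add_assoc, pow_add (P n) _ f, mul_nsmul', hP]

omit [Fintype J] in
lemma X_shift (hP : ∀ n j, P n ^ f • u n j = u n j) (n : ℕ) (i e : ZMod f) (j : J) :
    X f P u n (i + e, j) = P n ^ e.val • X f P u n (i, j) := by
  unfold X
  simp only
  rw [← mul_nsmul', ← pow_add, ZMod.val_add, pow_mod_smul hP, add_comm]

variable {𝒰 : Ultrafilter ℕ}

omit [Fintype J] in
lemma tor_shift (hP : ∀ n j, P n ^ f • u n j = u n j) {i : ZMod f} (i' : ZMod f) {j : J}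
    (h : Tor 𝒰 (fun n => X f P u n (i, j))) : Tor 𝒰 (fun n => X f P u n (i', j)) := by
  refine (tor_mul h (fun n => P n ^ (i' - i).val)).congr (Eventually.of_forall fun n => ?_)
  rw [← X_shift hP, add_sub_cancel]

omit [Fintype J] in
lemma link_shift (hP : ∀ n j, P n ^ f • u n j = u n j) (e : ZMod f) {i i' : ZMod f} {j j' : J}
    (h : Link 𝒰 (X f P u) (i, j) (i', j')) : Link 𝒰 (X f P u) (i + e, j) (i' + e, j') := by
  obtain ⟨a, b, ha, hb, h⟩ := h
  refine ⟨a, b, ha, hb, ?_⟩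
  refine (tor_mul h (fun n => P n ^ e.val)).congr (Eventually.of_forall fun n => ?_)
  rw [X_shift hP, X_shift hP, nsmul_add, smul_comm, smul_comm b]

omit [Fintype J] in
lemma opp_shift (hP : ∀ n j, P n ^ f • u n j = u n j) (e : ZMod f) {i i' : ZMod f} {j j' : J}
    (h : ∀ᶠ n in (𝒰 : Filter ℕ), X f P u n (i', j') = -X f P u n (i, j)) :
    ∀ᶠ n in (𝒰 : Filter ℕ), X f P u n (i' + e, j') = -X f P u n (i + e, j) := by
  filter_upwards [h] with n hn
  rw [X_shift hP, X_shift hP, hn, smul_neg]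

variable (D : Dat 𝒰 (X f P u))

include D

lemma K_ne (hP : ∀ n j, P n ^ f • u n j = u n j) {i : ZMod f} (i' : ZMod f) {j : J}
    (h : D.K (i, j) ≠ 0) : D.K (i', j) ≠ 0 := by
  intro h'
  rw [D.hK] at h'
  exact h ((D.hK _).mpr (tor_shift hP i h'))

lemma K_ne_of_link {α β : ZMod f × J} (hc : D.c α = D.c β) (h : D.K α ≠ 0) : D.K β ≠ 0 := by
  intro h'
  rw [D.hK] at h'
  obtain ⟨a, b, ha, hb, h1⟩ := (D.hc _ _).mp hc
  apply h
  rw [D.hK]
  refine Tor.of_zsmul ha ((h1.sub (h'.zsmul b)).congr (Eventually.of_forall fun n => ?_))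
  simp

/-- the multiplicities of the conjugates agree up to sign -/
lemma natAbs_eq (hP : ∀ n j, P n ^ f • u n j = u n j) {i i' : ZMod f} {j : J}
    (hc : D.c (i, j) = D.c (i', j)) (h : D.K (i, j) ≠ 0) :
    (D.K (i, j)).natAbs = (D.K (i', j)).natAbs := by
  set k := D.K (i, j) with hk
  set k' := D.K (i', j) with hk'
  have hf : 0 < f := NeZero.pos f
  -- the linear relation
  have h1 : Tor 𝒰 (fun n => (k' - k * (P n ^ (i' - i).val : ℕ)) • X f P u n (i, j)) := by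
    refine ((((D.tor_σ (i, j)).zsmul k').sub ((D.tor_σ (i', j)).zsmul k))).congr ?_
    filter_upwards [D.hx (i, j), D.hx (i', j)] with n h1 h2
    have h3 : X f P u n (i', j) = (P n ^ (i' - i).val) • X f P u n (i, j) := by
      rw [← X_shift hP, add_sub_cancel]
    rw [sub_smul, mul_smul, natCast_zsmul, ← h3, h1, h2, ← hc, smul_add, smul_add, smul_smul,
      smul_smul, mul_comm k k']
    abel
  have h2 : Tor 𝒰 (fun n => (k' ^ f - k ^ f) • X f P u n (i, j)) := by
    have h3 : ∀ n, ∃ q : ℤ, k' ^ f - (k * (P n ^ (i' - i).val : ℕ)) ^ f =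
        q * (k' - k * (P n ^ (i' - i).val : ℕ)) := fun n => by
      obtain ⟨q, hq⟩ := sub_dvd_pow_sub_pow k' (k * (P n ^ (i' - i).val : ℕ)) f
      exact ⟨q, by rw [hq, mul_comm]⟩
    choose q hq using h3
    refine (tor_mulz h1 q).congr (Eventually.of_forall fun n => ?_)
    rw [smul_smul, ← hq, sub_smul, sub_smul, mul_pow, mul_smul]
    congr 2
    have h4 : (((P n ^ (i' - i).val : ℕ) : ℤ) ^ f) = (((P n ^ f) ^ (i' - i).val : ℕ) : ℤ) := by
      push_cast
      rw [← pow_mul, ← pow_mul, mul_comm]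
    rw [h4, natCast_zsmul]
    have h5 : ∀ e : ℕ, (P n ^ f) ^ e • X f P u n (i, j) = X f P u n (i, j) := by
      intro e
      induction e with
      | zero => simp
      | succ e ih =>
        rw [pow_succ, mul_nsmul']
        have h6 : P n ^ f • X f P u n (i, j) = X f P u n (i, j) := by
          unfold X
          rw [smul_comm, hP]
        rw [h6, ih]
    exact h5 _
  have h3 : k' ^ f - k ^ f = 0 := by
    by_contra hne
    exact h ((D.hK _).mpr (h2.of_zsmul hne))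
  have h4 : k'.natAbs ^ f = k.natAbs ^ f := by
    rw [← Int.natAbs_pow, ← Int.natAbs_pow, sub_eq_zero.mp h3]
  exact (Nat.pow_left_injective hf.ne' h4).symm

/-- opposite indices with a common solution -/
lemma opp_of_sol {α β : ZMod f × J} (hc : D.c α = D.c β)
    (hn : (D.K α).natAbs = (D.K β).natAbs) (hs : (D.K β).sign = -(D.K α).sign)
    {y : UnitAddCircle} (h1 : D.K α • y + D.σ α = 0) (h2 : D.K β • y + D.σ β = 0) :
    ∀ᶠ n in (𝒰 : Filter ℕ), X f P u n β = -X f P u n α := by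
  have hK : D.K β = -D.K α := by
    rw [← Int.sign_mul_natAbs (D.K β), ← Int.sign_mul_natAbs (D.K α), hs, hn]
    simp
  refine D.opp hc hK ?_
  rw [hK, neg_smul] at h2
  have h3 : D.σ β = D.K α • y := by
    have := eq_neg_of_add_eq_zero_right h2
    rw [this, neg_neg]
  rw [h3]
  exact eq_neg_of_add_eq_zero_left h1

/-- **Isolated indices are supersingular.** -/
theorem single (hP : ∀ n j, P n ^ f • u n j = u n j) {i0 : ZMod f} {j : J}
    (hK : D.K (i0, j) ≠ 0)
    (hs : ∀ β : ZMod f × J, D.c β = D.c (i0, j) → β.2 = j) :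
    ∃ e : ZMod f, ∀ᶠ n in (𝒰 : Filter ℕ), X f P u n (e, j) = -X f P u n (i0, j) := by
  obtain ⟨y, hy⟩ := exists_div (D.K (i0, j)) hK (-D.σ (i0, j))
  have hy' : D.K (i0, j) • y + D.σ (i0, j) = 0 := by rw [hy]; simp
  obtain ⟨⟨e, j'⟩, h1, h2, h3⟩ := exists_opp (D.jump_cls (D.c (i0, j)) y)
    (D.mem_cls.mpr ⟨rfl, hK⟩) hK hy'
  have h1' := D.mem_cls.mp h1
  have hj' : j' = j := hs (e, j') h1'.1
  subst hj'
  exact ⟨e, opp_of_sol D h1'.1.symm (natAbs_eq D hP h1'.1.symm hK) h2 hy' h3⟩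

end orb

end Pool.Agent.Q59.TP
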