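import Pool.Agent.Q59.TP.Orb

/-!
# Pairs of linked indices
-/

namespace Pool.Agent.Q59.TP

open Finset Filter Topology Pool.Agent.Q59.QP

lemma sum_K_eq_zero {ι : Type*} {C : Finset ι} {K : ι → ℤ} {σ : ι → UnitAddCircle}
    (hk : ∀ i ∈ C, K i ≠ 0) (hJ : ∀ y, jump C K σ y = 0) : ∑ i ∈ C, K i = 0 := by
  classical
  have hy : ∀ i : ι, ∃ w : UnitAddCircle, i ∈ C → K i • w = -σ i := by
    intro i
    by_cases hi : i ∈ C
    · obtain ⟨w, hw⟩ := exists_div (K i) (hk i hi) (-σ i)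
      exact ⟨w, fun _ => hw⟩
    · exact ⟨0, fun h => absurd h hi⟩
  choose w hw using hy
  have h1 := sum_solutions hk hJ hw (fun _ => (1 : ℤ))
  rw [← h1]
  refine sum_congr rfl fun i _ => ?_
  rw [sum_const, card_range, smul_eq_mul, nsmul_eq_mul, mul_one]
  exact (Int.sign_mul_natAbs (K i)).symm

section

variable {f : ℕ} [NeZero f] {J : Type*} [Fintype J] {P : ℕ → ℕ} {u : ℕ → J → UnitAddCircle}
  {𝒰 : Ultrafilter ℕ} (D : Dat 𝒰 (X f P u))

/-- supersingular indices -/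
def SS (𝒰 : Ultrafilter ℕ) (f : ℕ) (P : ℕ → ℕ) (u : ℕ → J → UnitAddCircle) (j : J) : Prop :=
  ∃ e : ZMod f, ∀ᶠ n in (𝒰 : Filter ℕ), X f P u n (e, j) = -X f P u n (0, j)

omit [Fintype J] in
lemma SS.of_opp (hP : ∀ n j, P n ^ f • u n j = u n j) {i i' : ZMod f} {j : J}
    (h : ∀ᶠ n in (𝒰 : Filter ℕ), X f P u n (i', j) = -X f P u n (i, j)) : SS 𝒰 f P u j := by
  refine ⟨i' - i, ?_⟩
  have h1 := opp_shift hP (-i) h
  rw [add_neg_cancel, ← sub_eq_add_neg] at h1
  exact h1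

/-- the part of a class -/
noncomputable def part (r : ZMod f × J) (Q : ZMod f × J → Prop) : Finset (ZMod f × J) := by
  classical exact (D.cls r).filter Q

lemma mem_part {r α : ZMod f × J} {Q : ZMod f × J → Prop} :
    α ∈ part D r Q ↔ (D.c α = D.c r ∨ D.c α = r) ∧ D.c α = r ∧ D.K α ≠ 0 ∧ Q α := by
  classical
  unfold part
  rw [mem_filter, D.mem_cls]
  tauto

lemma mem_part' {r α : ZMod f × J} {Q : ZMod f × J → Prop} :
    α ∈ part D r Q ↔ D.c α = r ∧ D.K α ≠ 0 ∧ Q α := by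
  rw [mem_part]
  tauto

include D

lemma ss_jump (hP : ∀ n j, P n ^ f • u n j = u n j) {j : J} (hs : SS 𝒰 f P u j)
    (r : ZMod f × J) (y : UnitAddCircle) : jump (part D r fun α => α.2 = j) D.K D.σ y = 0 := by
  classical
  obtain ⟨e, he⟩ := hs
  have hK : ∀ i : ZMod f, D.K (i, j) ≠ 0 →
      D.c (i + e, j) = D.c (i, j) ∧ D.K (i + e, j) = -D.K (i, j) ∧
        D.σ (i + e, j) = -D.σ (i, j) := by
    intro i hi
    have h1 := opp_shift hP i he
    rw [zero_add, add_comm] at h1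
    exact D.opp' hi h1
  have h1 : jump (part D r fun α => α.2 = j) D.K D.σ y =
      ∑ α ∈ part D r fun α => α.2 = j,
        (D.K (α.1 + e, α.2)).sign *
          (if D.K (α.1 + e, α.2) • y + D.σ (α.1 + e, α.2) = 0 then 1 else 0) := by
    symm
    unfold jump
    refine sum_bij (fun α _ => (α.1 + e, α.2)) ?_ ?_ ?_ ?_
    · rintro ⟨i, j1⟩ h
      rw [mem_part'] at h
      obtain ⟨h1, h2, rfl⟩ := h
      obtain ⟨h3, h4, -⟩ := hK i h2
      exact (mem_part' D).mpr ⟨h3.trans h1, by rw [h4]; exact neg_ne_zero.mpr h2, rfl⟩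
    · rintro ⟨i, j1⟩ _ ⟨i', j2⟩ _ h
      simp only [Prod.mk.injEq, add_left_inj] at h
      exact Prod.ext h.1 h.2
    · rintro ⟨i, j1⟩ h
      rw [mem_part'] at h
      obtain ⟨h1, h2, rfl⟩ := h
      have h3 := K_ne D hP (i - e) h2
      obtain ⟨h4, -, -⟩ := hK (i - e) h3
      rw [sub_add_cancel] at h4
      exact ⟨(i - e, j1), (mem_part' D).mpr ⟨h4.symm.trans h1, h3, rfl⟩, by simp⟩
    · rintro ⟨i, j1⟩ h
      rfl
  have h2 : ∑ α ∈ part D r fun α => α.2 = j,
        (D.K (α.1 + e, α.2)).sign *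
          (if D.K (α.1 + e, α.2) • y + D.σ (α.1 + e, α.2) = 0 then 1 else 0) =
      -jump (part D r fun α => α.2 = j) D.K D.σ y := by
    unfold jump
    rw [← sum_neg_distrib]
    refine sum_congr rfl ?_
    rintro ⟨i, j1⟩ h
    rw [mem_part'] at h
    obtain ⟨h1, h2, rfl⟩ := h
    obtain ⟨-, h3, h4⟩ := hK i h2
    simp only
    rw [h3, h4, Int.sign_neg, neg_smul]
    have h5 : (-(D.K (i, j1) • y) + -D.σ (i, j1) = 0) ↔ (D.K (i, j1) • y + D.σ (i, j1) = 0) := by
      rw [← neg_add, neg_eq_zero]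
    by_cases h6 : D.K (i, j1) • y + D.σ (i, j1) = 0
    · rw [if_pos h6, if_pos (h5.mpr h6)]
      ring
    · rw [if_neg h6, if_neg (fun h => h6 (h5.mp h))]
      ring
  rw [h2] at h1
  omega

lemma ss_of_jump (hP : ∀ n j, P n ^ f • u n j = u n j) {i : ZMod f} {j : J}
    (hK : D.K (i, j) ≠ 0)
    (hJ : ∀ y, jump (part D (D.c (i, j)) fun α => α.2 = j) D.K D.σ y = 0) : SS 𝒰 f P u j := by
  obtain ⟨y, hy⟩ := exists_div (D.K (i, j)) hK (-D.σ (i, j))
  have hy' : D.K (i, j) • y + D.σ (i, j) = 0 := by rw [hy]; simp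
  obtain ⟨⟨e, j'⟩, h1, h2, h3⟩ := exists_opp (hJ y) ((mem_part' D).mpr ⟨rfl, hK, rfl⟩) hK hy'
  rw [mem_part'] at h1
  obtain ⟨h4, -, rfl⟩ := h1
  exact SS.of_opp hP (opp_of_sol D h4.symm (natAbs_eq D hP h4.symm hK) h2 hy' h3)

/-- **Isolated indices are supersingular.** -/
theorem ss_of_single (hP : ∀ n j, P n ^ f • u n j = u n j) {j : J}
    (hK : D.K (0, j) ≠ 0)
    (hs : ∀ β : ZMod f × J, D.c β = D.c (0, j) → β.2 = j) : SS 𝒰 f P u j :=
  single D hP hK hs

/-- **Pairs of linked indices.** -/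
theorem pair (hP : ∀ n j, P n ^ f • u n j = u n j) {i0 : ZMod f} {j j' : J} (hne : j ≠ j')
    (hK : D.K (0, j) ≠ 0) (hl : D.c (i0, j') = D.c (0, j))
    (hs : ∀ β : ZMod f × J, D.c β = D.c (0, j) → β.2 = j ∨ β.2 = j') :
    (∃ e : ZMod f, ∀ᶠ n in (𝒰 : Filter ℕ), X f P u n (e, j') = -X f P u n (0, j)) ∨
      (SS 𝒰 f P u j ∧ SS 𝒰 f P u j') := by
  classical
  set r := D.c (0, j) with hr
  have hK' : D.K (i0, j') ≠ 0 := K_ne_of_link D hl.symm hK
  have hjoint : ∀ y, jump (part D r fun α => α.2 = j) D.K D.σ y +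
      jump (part D r fun α => α.2 = j') D.K D.σ y = 0 := by
    intro y
    rw [← D.jump_cls r y]
    unfold jump part
    rw [← sum_union]
    · refine sum_congr ?_ fun _ _ => rfl
      ext α
      rw [mem_union, mem_filter, mem_filter]
      constructor
      · rintro (h | h)
        · exact h.1
        · exact h.1
      · intro h
        rcases hs α (D.mem_cls.mp h).1 with h1 | h1
        · exact Or.inl ⟨h, h1⟩
        · exact Or.inr ⟨h, h1⟩
    · rw [disjoint_left]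
      intro α h1 h2
      exact hne ((mem_filter.mp h1).2.symm.trans (mem_filter.mp h2).2)
  by_cases h1 : SS 𝒰 f P u j
  · refine Or.inr ⟨h1, ss_of_jump D hP hK' fun y => ?_⟩
    rw [hl]
    have h2 := hjoint y
    rw [ss_jump D hP h1, zero_add] at h2
    exact h2
  by_cases h2 : SS 𝒰 f P u j'
  · exact absurd (ss_of_jump D hP hK fun y => by
      have h3 := hjoint y
      rw [ss_jump D hP h2, add_zero] at h3
      exact h3) h1
  left
  -- the four parts
  set F : UnitAddCircle → ZMod f × J → ℤ := fun y α =>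
    (D.K α).sign * (if D.K α • y + D.σ α = 0 then 1 else 0) with hF
  have hpos : ∀ (y : UnitAddCircle) (j1 : J), 0 ≤ ∑ α ∈ part D r (fun α => α.2 = j1 ∧ 0 < D.K α), F y α := by
    intro y j1
    refine sum_nonneg fun α hα => ?_
    rw [mem_part'] at hα
    rw [hF]
    simp only
    rw [Int.sign_eq_one_of_pos hα.2.2.2]
    split_ifs <;> norm_num
  have hneg : ∀ (y : UnitAddCircle) (j1 : J), ∑ α ∈ part D r (fun α => α.2 = j1 ∧ D.K α < 0), F y α ≤ 0 := by
    intro y j1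
    refine sum_nonpos fun α hα => ?_
    rw [mem_part'] at hα
    rw [hF]
    simp only
    rw [Int.sign_eq_neg_one_of_neg hα.2.2.2]
    split_ifs <;> norm_num
  have hor : ∀ (y : UnitAddCircle) (j1 : J), ¬ SS 𝒰 f P u j1 →
      ∑ α ∈ part D r (fun α => α.2 = j1 ∧ 0 < D.K α), F y α = 0 ∨
        ∑ α ∈ part D r (fun α => α.2 = j1 ∧ D.K α < 0), F y α = 0 := by
    intro y j1 hj1
    by_contra hcon
    rw [not_or] at hcon
    obtain ⟨α, hα, hα'⟩ := exists_ne_zero_of_sum_ne_zero hcon.1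
    obtain ⟨β, hβ, hβ'⟩ := exists_ne_zero_of_sum_ne_zero hcon.2
    rw [mem_part'] at hα hβ
    obtain ⟨i, j2⟩ := α
    obtain ⟨i', j3⟩ := β
    obtain ⟨h3, h4, h5, h6⟩ := hα
    obtain ⟨h3', h4', h5', h6'⟩ := hβ
    simp only at h5 h5'
    subst h5
    subst h5'
    have h7 : D.K (i, j3) • y + D.σ (i, j3) = 0 := by
      by_contra h
      apply hα'
      rw [hF]
      simp only
      rw [if_neg h, mul_zero]
    have h7' : D.K (i', j3) • y + D.σ (i', j3) = 0 := by
      by_contra h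
      apply hβ'
      rw [hF]
      simp only
      rw [if_neg h, mul_zero]
    have h8 : D.c (i, j3) = D.c (i', j3) := h3.trans h3'.symm
    refine hj1 (SS.of_opp hP (opp_of_sol D h8 (natAbs_eq D hP h8 h4) ?_ h7 h7'))
    rw [Int.sign_eq_neg_one_of_neg h6', Int.sign_eq_one_of_pos h6]
  have hsplit : ∀ (g : ZMod f × J → ℤ) (j1 : J), ∑ α ∈ part D r (fun α => α.2 = j1), g α =
      ∑ α ∈ part D r (fun α => α.2 = j1 ∧ 0 < D.K α), g α +
        ∑ α ∈ part D r (fun α => α.2 = j1 ∧ D.K α < 0), g α := by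
    intro g j1
    rw [← sum_union]
    · refine sum_congr ?_ fun _ _ => rfl
      ext α
      rw [mem_union, mem_part', mem_part', mem_part']
      constructor
      · rintro ⟨h3, h4, h5⟩
        rcases lt_or_gt_of_ne h4 with h6 | h6
        · exact Or.inr ⟨h3, h4, h5, h6⟩
        · exact Or.inl ⟨h3, h4, h5, h6⟩
      · rintro (h | h)
        · exact ⟨h.1, h.2.1, h.2.2.1⟩
        · exact ⟨h.1, h.2.1, h.2.2.1⟩
    · rw [disjoint_left]
      intro α h3 h4
      rw [mem_part'] at h3 h4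
      exact absurd h3.2.2.2 (not_lt.mpr h4.2.2.2.le)
  have hunion : ∀ (g : ZMod f × J → ℤ) (Q Q' : ZMod f × J → Prop) (j1 j2 : J), j1 ≠ j2 →
      ∑ α ∈ part D r (fun α => (α.2 = j1 ∧ Q α) ∨ (α.2 = j2 ∧ Q' α)), g α =
      ∑ α ∈ part D r (fun α => α.2 = j1 ∧ Q α), g α +
        ∑ α ∈ part D r (fun α => α.2 = j2 ∧ Q' α), g α := by
    intro g Q Q' j1 j2 h12
    rw [← sum_union]
    · refine sum_congr ?_ fun _ _ => rfl
      ext α
      rw [mem_union, mem_part', mem_part', mem_part']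
      tauto
    · rw [disjoint_left]
      intro α h3 h4
      rw [mem_part'] at h3 h4
      exact h12 (h3.2.2.1.symm.trans h4.2.2.1)
  have hzero : ∀ y, (∑ α ∈ part D r (fun α => α.2 = j ∧ 0 < D.K α), F y α) +
      (∑ α ∈ part D r (fun α => α.2 = j' ∧ D.K α < 0), F y α) = 0 ∧
      (∑ α ∈ part D r (fun α => α.2 = j' ∧ 0 < D.K α), F y α) +
      (∑ α ∈ part D r (fun α => α.2 = j ∧ D.K α < 0), F y α) = 0 := by
    intro y
    have h3 := hjoint y
    have h4 : ∀ j1, jump (part D r fun α => α.2 = j1) D.K D.σ y =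
      ∑ α ∈ part D r (fun α => α.2 = j1 ∧ 0 < D.K α), F y α +
        ∑ α ∈ part D r (fun α => α.2 = j1 ∧ D.K α < 0), F y α := fun j1 => hsplit (F y) j1
    rw [h4, h4] at h3
    have h5 := hor y j h1
    have h6 := hor y j' h2
    have h7 := hpos y j
    have h8 := hpos y j'
    have h9 := hneg y j
    have h10 := hneg y j'
    omega
  -- the sums of the multiplicities
  have hs1 : ∑ α ∈ part D r (fun α => (α.2 = j ∧ 0 < D.K α) ∨ (α.2 = j' ∧ D.K α < 0)), D.K α = 0 := by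
    refine sum_K_eq_zero (σ := D.σ) (fun α hα => ((mem_part' D).mp hα).2.1) fun y => ?_
    exact (hunion (F y) (fun α => 0 < D.K α) (fun α => D.K α < 0) j j' hne).trans (hzero y).1
  have hs2 : ∑ α ∈ part D r (fun α => (α.2 = j' ∧ 0 < D.K α) ∨ (α.2 = j ∧ D.K α < 0)), D.K α = 0 := by
    refine sum_K_eq_zero (σ := D.σ) (fun α hα => ((mem_part' D).mp hα).2.1) fun y => ?_
    exact (hunion (F y) (fun α => 0 < D.K α) (fun α => D.K α < 0) j' j hne.symm).trans (hzero y).2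
  rw [hunion D.K (fun α => 0 < D.K α) (fun α => D.K α < 0) j j' hne] at hs1
  rw [hunion D.K (fun α => 0 < D.K α) (fun α => D.K α < 0) j' j hne.symm] at hs2
  have hmass : ∀ j1, ∑ α ∈ part D r (fun α => α.2 = j1), ((D.K α).natAbs : ℤ) =
      ∑ α ∈ part D r (fun α => α.2 = j1 ∧ 0 < D.K α), D.K α -
        ∑ α ∈ part D r (fun α => α.2 = j1 ∧ D.K α < 0), D.K α := by
    intro j1
    rw [hsplit, sub_eq_add_neg, ← sum_neg_distrib]
    congr 1
    · refine sum_congr rfl fun α hα => ?_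
      rw [mem_part'] at hα
      have := hα.2.2.2
      omega
    · refine sum_congr rfl fun α hα => ?_
      rw [mem_part'] at hα
      have := hα.2.2.2
      omega
  have hmm : ∑ α ∈ part D r (fun α => α.2 = j), ((D.K α).natAbs : ℤ) =
      ∑ α ∈ part D r (fun α => α.2 = j'), ((D.K α).natAbs : ℤ) := by
    rw [hmass, hmass]
    linarith
  have hc1 : ∀ α ∈ part D r (fun α => α.2 = j), ((D.K α).natAbs : ℤ) = (D.K (0, j)).natAbs := by
    rintro ⟨i, j1⟩ hα
    rw [mem_part'] at hα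
    obtain ⟨h3, h4, h5⟩ := hα
    simp only at h5
    subst h5
    rw [natAbs_eq D hP (hr.symm.trans h3.symm) hK]
  have hc2 : ∀ α ∈ part D r (fun α => α.2 = j'), ((D.K α).natAbs : ℤ) = (D.K (i0, j')).natAbs := by
    rintro ⟨i, j1⟩ hα
    rw [mem_part'] at hα
    obtain ⟨h3, h4, h5⟩ := hα
    simp only at h5
    subst h5
    rw [natAbs_eq D hP (hl.trans h3.symm) hK']
  have hcard : (part D r (fun α => α.2 = j)).card = (part D r (fun α => α.2 = j')).card := by
    refine card_bij (fun α _ => (α.1 + i0, j')) ?_ ?_ ?_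
    · rintro ⟨i, j1⟩ hα
      rw [mem_part'] at hα
      obtain ⟨h3, h4, h5⟩ := hα
      simp only at h5
      subst h5
      have h6 : D.c (i + i0, j') = D.c (i, j1) := by
        rw [D.hc]
        have h7 := link_shift hP i ((D.hc _ _).mp hl)
        rw [zero_add, add_comm] at h7
        exact h7
      exact (mem_part' D).mpr ⟨h6.trans h3, K_ne_of_link D h6.symm h4, rfl⟩
    · rintro ⟨i, j1⟩ hα ⟨i', j2⟩ hβ h
      rw [mem_part'] at hα hβ
      simp only [Prod.mk.injEq, add_left_inj, and_true] at h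
      exact Prod.ext h (hα.2.2.trans hβ.2.2.symm)
    · rintro ⟨i, j1⟩ hα
      rw [mem_part'] at hα
      obtain ⟨h3, h4, h5⟩ := hα
      simp only at h5
      subst h5
      have h6 : D.c (i, j1) = D.c (i - i0, j) := by
        rw [D.hc]
        have h7 := link_shift hP (i - i0) ((D.hc _ _).mp hl)
        rw [zero_add, add_sub_cancel] at h7
        exact h7
      exact ⟨(i - i0, j), (mem_part' D).mpr ⟨h6.symm.trans h3, K_ne_of_link D h6 h4, rfl⟩, by simp⟩
  have hKK : (D.K (0, j)).natAbs = (D.K (i0, j')).natAbs := by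
    rw [sum_congr rfl hc1, sum_congr rfl hc2, sum_const, sum_const, ← hcard, nsmul_eq_mul,
      nsmul_eq_mul] at hmm
    have h3 : 0 < (part D r (fun α => α.2 = j)).card :=
      card_pos.mpr ⟨(0, j), (mem_part' D).mpr ⟨rfl, hK, rfl⟩⟩
    have h4 : ((part D r (fun α => α.2 = j)).card : ℤ) ≠ 0 := by exact_mod_cast h3.ne'
    exact_mod_cast mul_left_cancel₀ h4 hmm
  -- the opposite index
  obtain ⟨y, hy⟩ := exists_div (D.K (0, j)) hK (-D.σ (0, j))
  have hy' : D.K (0, j) • y + D.σ (0, j) = 0 := by rw [hy]; simp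
  obtain ⟨⟨e, j1⟩, h3, h4, h5⟩ := exists_opp (D.jump_cls r y) (D.mem_cls.mpr ⟨rfl, hK⟩) hK hy'
  obtain ⟨h6, h7⟩ := D.mem_cls.mp h3
  rcases hs (e, j1) h6 with h8 | h8
  · simp only at h8
    subst h8
    exact absurd (SS.of_opp hP (opp_of_sol D (hr.symm.trans h6.symm)
      (natAbs_eq D hP (hr.symm.trans h6.symm) hK) h4 hy' h5)) h1
  · simp only at h8
    subst h8
    refine ⟨e, opp_of_sol D (hr.symm.trans h6.symm) ?_ h4 hy' h5⟩
    rw [hKK, natAbs_eq D hP (hl.trans h6.symm) hK']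

end

end Pool.Agent.Q59.TP
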