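import Pool.Agent.Q59.TP.Pair
import Pool.Agent.Q59.QP.Bridge

/-!
# The pattern of a Tate character
-/

namespace Pool.Agent.Q59.TP

open Finset Filter Topology Pool.Agent.Q59.QP

section tp

variable {m : ℕ} [NeZero m]

lemma tp_add (x y : ZMod m) : tp (x + y) = tp x + tp y := by
  obtain ⟨x', rfl⟩ : ∃ x' : ℕ, x = (x' : ZMod m) := ⟨x.val, (ZMod.natCast_zmod_val x).symm⟩
  obtain ⟨y', rfl⟩ : ∃ y' : ℕ, y = (y' : ZMod m) := ⟨y.val, (ZMod.natCast_zmod_val y).symm⟩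
  rw [← Nat.cast_add, tp_natCast (NeZero.pos _), tp_natCast (NeZero.pos _),
    tp_natCast (NeZero.pos _), pt_add]

lemma tp_neg (x : ZMod m) : tp (-x) = -tp x := by
  rw [← add_eq_zero_iff_eq_neg, ← tp_add, neg_add_cancel, tp_zero]

lemma tp_zsmul (k : ℤ) (z : ZMod m) : k • tp z = tp ((k : ZMod m) * z) := by
  obtain ⟨n, rfl | rfl⟩ := Int.eq_nat_or_neg k
  · rw [natCast_zsmul, ← tp_mul]
    simp
  · rw [neg_smul, natCast_zsmul, ← tp_mul, ← tp_neg]
    simp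

end tp

section defs

variable {m : ℕ} {J : Type*}

/-- supersingular residues -/
def SSr (p f : ℕ) (x : ZMod m) : Prop := ∃ e < f, (p : ZMod m) ^ e * x = -x

/-- residues which are linked with bounded coefficients -/
def Near (p f H : ℕ) (x y : ZMod m) : Prop :=
  ∃ (a : ℤ) (b e : ℕ), a.natAbs ≤ H ∧ 0 < b ∧ b ≤ H ∧ e < f ∧
    (b : ZMod m) * y = (a : ZMod m) * ((p : ZMod m) ^ e * x)

/-- matched families -/
def Match (p f : ℕ) (s : J → ZMod m) : Prop :=
  ∃ μ : J → J, (∀ j, μ (μ j) = j) ∧ (∀ j, μ j = j → SSr p f (s j)) ∧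
    ∀ j, μ j ≠ j → (∃ e < f, s (μ j) = -((p : ZMod m) ^ e * s j)) ∨
      (SSr p f (s j) ∧ SSr p f (s (μ j)))

/-- the pattern -/
structure Pat (p f H : ℕ) (s : J → ZMod m) (T : Finset J) (ρ : J → J) : Prop where
  const : ∀ j ∈ T, ∃ b, 0 < b ∧ b ≤ H ∧ (b : ZMod m) * s j = 0
  out : ∀ j ∉ T, ρ j ∉ T
  idem : ∀ j ∉ T, ρ (ρ j) = ρ j
  near : ∀ j ∉ T, Near p f H (s (ρ j)) (s j)
  single : ∀ j ∉ T, (∀ j' ∉ T, ρ j' = ρ j → j' = j) → SSr p f (s j)

lemma Near.mono {p f H H' : ℕ} {x y : ZMod m} (h : Near p f H x y) (hH : H ≤ H') :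
    Near p f H' x y := by
  obtain ⟨a, b, e, h1, h2, h3, h4, h5⟩ := h
  exact ⟨a, b, e, h1.trans hH, h2, h3.trans hH, h4, h5⟩

lemma Pat.mono {p f H H' : ℕ} {s : J → ZMod m} {T : Finset J} {ρ : J → J}
    (h : Pat p f H s T ρ) (hH : H ≤ H') : Pat p f H' s T ρ where
  const j hj := by
    obtain ⟨b, h1, h2, h3⟩ := h.const j hj
    exact ⟨b, h1, h2.trans hH, h3⟩
  out := h.out
  idem := h.idem
  near j hj := (h.near j hj).mono hH
  single := h.single

variable [Fintype J] [DecidableEq J]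

/-- the singletons -/
def R1 (T : Finset J) (ρ : J → J) : Finset J :=
  univ.filter fun j => j ∉ T ∧ ρ j = j ∧ ∀ j' ∉ T, ρ j' = j → j' = j

/-- the other representatives -/
def R2 (T : Finset J) (ρ : J → J) : Finset J :=
  univ.filter fun j => j ∉ T ∧ ρ j = j ∧ ∃ j' ∉ T, ρ j' = j ∧ j' ≠ j

lemma card_ineq {T : Finset J} {ρ : J → J} (h1 : ∀ j ∉ T, ρ j ∉ T)
    (h2 : ∀ j ∉ T, ρ (ρ j) = ρ j) :
    2 * (R2 T ρ).card + (R1 T ρ).card ≤ Fintype.card J ∧
      ((T.Nonempty ∨ ∃ j1 ∉ T, ∃ j2 ∉ T, ∃ j3 ∉ T, j1 ≠ j2 ∧ j1 ≠ j3 ∧ j2 ≠ j3 ∧ ρ j1 = ρ j2 ∧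
        ρ j1 = ρ j3) → 2 * (R2 T ρ).card + (R1 T ρ).card < Fintype.card J) := by
  have hfib : (univ \ T).card = ∑ r ∈ R1 T ρ ∪ R2 T ρ, ((univ \ T).filter fun j => ρ j = r).card := by
    refine card_eq_sum_card_fiberwise fun j hj => ?_
    have hj' : j ∉ T := by
      have := hj
      simp only [coe_sdiff, coe_univ, Set.mem_sdiff, Set.mem_univ, true_and] at this
      simpa using this
    have : ρ j ∈ R1 T ρ ∪ R2 T ρ := by
      rw [mem_union]
      by_cases h : ∀ j' ∉ T, ρ j' = ρ j → j' = ρ j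
      · exact Or.inl (mem_filter.mpr ⟨mem_univ _, h1 j hj', h2 j hj', h⟩)
      · push Not at h
        exact Or.inr (mem_filter.mpr ⟨mem_univ _, h1 j hj', h2 j hj', h⟩)
    exact_mod_cast this
  have hdis : Disjoint (R1 T ρ) (R2 T ρ) := by
    rw [disjoint_left]
    intro j h3 h4
    obtain ⟨j', h5, h6, h7⟩ := (mem_filter.mp h4).2.2.2
    exact h7 ((mem_filter.mp h3).2.2.2 j' h5 h6)
  have hT : T.card + (univ \ T).card = Fintype.card J := by
    rw [add_comm, card_sdiff_add_card_eq_card (subset_univ T), card_univ]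
  have hl1 : ∀ r ∈ R1 T ρ, 1 ≤ ((univ \ T).filter fun j => ρ j = r).card := by
    intro r hr
    obtain ⟨-, h3, h4, -⟩ := mem_filter.mp hr
    exact card_pos.mpr ⟨r, mem_filter.mpr ⟨mem_sdiff.mpr ⟨mem_univ _, h3⟩, h4⟩⟩
  have hl2 : ∀ r ∈ R2 T ρ, 2 ≤ ((univ \ T).filter fun j => ρ j = r).card := by
    intro r hr
    obtain ⟨-, h3, h4, j', h5, h6, h7⟩ := mem_filter.mp hr
    have : 1 < ((univ \ T).filter fun j => ρ j = r).card :=
      one_lt_card.mpr ⟨r, mem_filter.mpr ⟨mem_sdiff.mpr ⟨mem_univ _, h3⟩, h4⟩, j',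
        mem_filter.mpr ⟨mem_sdiff.mpr ⟨mem_univ _, h5⟩, h6⟩, h7.symm⟩
    exact this
  have hsum : ∑ r ∈ R1 T ρ ∪ R2 T ρ, ((univ \ T).filter fun j => ρ j = r).card =
      ∑ r ∈ R1 T ρ, ((univ \ T).filter fun j => ρ j = r).card +
        ∑ r ∈ R2 T ρ, ((univ \ T).filter fun j => ρ j = r).card := sum_union hdis
  have hs1 : (R1 T ρ).card ≤ ∑ r ∈ R1 T ρ, ((univ \ T).filter fun j => ρ j = r).card := by
    have := sum_le_sum hl1
    simpa using this
  have hs2 : 2 * (R2 T ρ).card ≤ ∑ r ∈ R2 T ρ, ((univ \ T).filter fun j => ρ j = r).card := by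
    have := sum_le_sum hl2
    rw [sum_const, smul_eq_mul, mul_comm] at this
    exact this
  refine ⟨by omega, fun h => ?_⟩
  rcases h with h | ⟨j1, h3, j2, h4, j3, h5, h12, h13, h23, e12, e13⟩
  · have := card_pos.mpr h
    omega
  · have hr : ρ j1 ∈ R2 T ρ := by
      refine mem_filter.mpr ⟨mem_univ _, h1 j1 h3, h2 j1 h3, ?_⟩
      by_cases h : j1 = ρ j1
      · exact ⟨j2, h4, e12.symm, fun h' => h12 (h.trans h'.symm)⟩
      · exact ⟨j1, h3, rfl, h⟩
    have h6 : 2 < ((univ \ T).filter fun j => ρ j = ρ j1).card := by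
      rw [two_lt_card]
      exact ⟨j1, mem_filter.mpr ⟨mem_sdiff.mpr ⟨mem_univ _, h3⟩, rfl⟩, j2,
        mem_filter.mpr ⟨mem_sdiff.mpr ⟨mem_univ _, h4⟩, e12.symm⟩, j3,
        mem_filter.mpr ⟨mem_sdiff.mpr ⟨mem_univ _, h5⟩, e13.symm⟩, h12, h13, h23⟩
    have h7 : 2 * (R2 T ρ).card < ∑ r ∈ R2 T ρ, ((univ \ T).filter fun j => ρ j = r).card := by
      have := sum_lt_sum hl2 ⟨ρ j1, hr, h6⟩
      rw [sum_const, smul_eq_mul, mul_comm] at this
      exact this
    omega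

end defs

section

variable {f : ℕ} [NeZero f] {J : Type*} [Fintype J]

/-- the points of the conjugates -/
noncomputable def Y (f p : ℕ) {m : ℕ} {J : Type*} (s : J → ZMod m) (α : ZMod f × J) :
    UnitAddCircle := (p ^ α.1.val) • tp (s α.2)

omit [Fintype J] [NeZero f] in
lemma Y_eq {p m : ℕ} [NeZero m] (s : J → ZMod m) (α : ZMod f × J) :
    Y f p s α = tp ((p : ZMod m) ^ α.1.val * s α.2) := by
  unfold Y
  rw [← tp_mul, Nat.cast_pow]

/-- **Compactness.** -/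
theorem exists_pat [DecidableEq J] (f : ℕ) [NeZero f] : ∃ H : ℕ, ∀ (p m : ℕ) [NeZero m]
    (s : J → ZMod m), (p : ZMod m) ^ f = 1 → Rel (Y f p s) → ¬ Match p f s →
    ∃ (T : Finset J) (ρ : J → J), Pat p f H s T ρ ∧
      2 * (R2 T ρ).card + (R1 T ρ).card < Fintype.card J := by
  by_contra hcon
  push Not at hcon
  choose P m hm s hpf hrel hmat hno using hcon
  set 𝒰 : Ultrafilter ℕ := hyperfilter ℕ with h𝒰
  set u : ℕ → J → UnitAddCircle := fun n j => tp (s n j) with hu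
  have hXY : ∀ n α, X f P u n α = Y f (P n) (s n) α := fun n α => rfl
  have hP : ∀ n j, P n ^ f • u n j = u n j := by
    intro n j
    rw [hu]
    simp only
    rw [← tp_mul, Nat.cast_pow, hpf, one_mul]
  have hXtp : ∀ n (e : ZMod f) j, X f P u n (e, j) = tp ((P n : ZMod (m n)) ^ e.val * s n j) :=
    fun n e j => by rw [hXY, Y_eq]
  obtain ⟨D⟩ := exists_dat (𝒰 := 𝒰) (X f P u) (fun n => hrel n)
  -- the equivalence relation
  have htrans : ∀ {j j' j'' : J}, (∃ e : ZMod f, D.c (e, j') = D.c (0, j)) →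
      (∃ e : ZMod f, D.c (e, j'') = D.c (0, j')) → ∃ e : ZMod f, D.c (e, j'') = D.c (0, j) := by
    rintro j j' j'' ⟨e, he⟩ ⟨e', he'⟩
    refine ⟨e' + e, ?_⟩
    have h1 := link_shift hP e ((D.hc _ _).mp he')
    rw [zero_add] at h1
    exact ((D.hc _ _).mpr h1).trans he
  have hsymm : ∀ {j j' : J}, (∃ e : ZMod f, D.c (e, j') = D.c (0, j)) →
      ∃ e : ZMod f, D.c (e, j) = D.c (0, j') := by
    rintro j j' ⟨e, he⟩
    refine ⟨-e, ?_⟩
    have h1 := link_shift hP (-e) ((D.hc _ _).mp he)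
    rw [zero_add, add_neg_cancel] at h1
    exact ((D.hc _ _).mpr h1).symm
  let S : Setoid J := ⟨fun j j' => ∃ e : ZMod f, D.c (e, j') = D.c (0, j),
    fun j => ⟨0, rfl⟩, hsymm, htrans⟩
  set ρ : J → J := fun j => (Quotient.mk S j).out with hρ
  have hρj : ∀ j, ∃ e : ZMod f, D.c (e, j) = D.c (0, ρ j) := fun j =>
    Quotient.exact (Quotient.out_eq (Quotient.mk S j))
  have hρeq : ∀ j j', ρ j = ρ j' ↔ ∃ e : ZMod f, D.c (e, j') = D.c (0, j) := by
    intro j j'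
    constructor
    · intro h
      have h1 := hρj j'
      rw [← h] at h1
      exact htrans (hsymm (hρj j)) h1
    · intro h
      rw [hρ]
      simp only
      rw [Quotient.sound (s := S) h]
  have hρρ : ∀ j, ρ (ρ j) = ρ j := fun j => (hρeq _ _).mpr (hρj j)
  set T : Finset J := univ.filter fun j => D.K (0, j) = 0 with hT
  have hmemT : ∀ j, j ∈ T ↔ D.K (0, j) = 0 := fun j => by rw [hT]; simp
  have hTlink : ∀ {j j'}, ρ j = ρ j' → j ∉ T → j' ∉ T := by
    intro j j' h hj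
    rw [hmemT] at hj ⊢
    obtain ⟨e, he⟩ := (hρeq j j').mp h
    exact K_ne D hP 0 (K_ne_of_link D he.symm hj)
  have hout : ∀ j ∉ T, ρ j ∉ T := fun j hj => hTlink (hρρ j).symm hj
  -- the bounds
  have hconst : ∀ j ∈ T, ∃ b : ℕ, 0 < b ∧ ∀ᶠ n in (𝒰 : Filter ℕ), (b : ZMod (m n)) * s n j = 0 := by
    intro j hj
    obtain ⟨q, hq, h⟩ := (D.hK _).mp ((hmemT j).mp hj)
    refine ⟨q, hq, ?_⟩
    filter_upwards [h] with n hn
    rw [hXtp, ZMod.val_zero, pow_zero, one_mul, ← tp_mul] at hn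
    exact tp_eq_zero.mp hn
  have hnear : ∀ j, ∃ H0 : ℕ, ∀ᶠ n in (𝒰 : Filter ℕ), Near (P n) f H0 (s n (ρ j)) (s n j) := by
    intro j
    obtain ⟨e, he⟩ := hsymm (hρj j)
    obtain ⟨a, b, ha, hb, q, hq, h⟩ := (D.hc _ _).mp he.symm
    refine ⟨q * a.natAbs + q * b.natAbs, ?_⟩
    filter_upwards [h] with n hn
    rw [hXtp, hXtp, ZMod.val_zero, pow_zero, one_mul] at hn
    rw [tp_zsmul, tp_zsmul, ← tp_add, ← tp_mul, tp_eq_zero] at hn
    rcases Int.natAbs_eq a with ha' | ha'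
    · refine ⟨-(q * b), q * a.natAbs, e.val, ?_, Nat.mul_pos hq (Int.natAbs_pos.mpr ha), by omega,
        ZMod.val_lt e, ?_⟩
      · rw [Int.natAbs_neg, Int.natAbs_mul, Int.natAbs_natCast]; omega
      · have h3 : ((a : ℤ) : ZMod (m n)) = ((a.natAbs : ℕ) : ZMod (m n)) := by
          conv_lhs => rw [ha']
          simp
        rw [h3] at hn
        push_cast
        linear_combination hn
    · refine ⟨q * b, q * a.natAbs, e.val, ?_, Nat.mul_pos hq (Int.natAbs_pos.mpr ha), by omega,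
        ZMod.val_lt e, ?_⟩
      · rw [Int.natAbs_mul, Int.natAbs_natCast]; omega
      · have h3 : ((a : ℤ) : ZMod (m n)) = -((a.natAbs : ℕ) : ZMod (m n)) := by
          conv_lhs => rw [ha']
          simp
        rw [h3] at hn
        push_cast
        linear_combination -hn
  have hSSr : ∀ j, SS 𝒰 f P u j → ∀ᶠ n in (𝒰 : Filter ℕ), SSr (P n) f (s n j) := by
    rintro j ⟨e, he⟩
    filter_upwards [he] with n hn
    refine ⟨e.val, ZMod.val_lt e, ?_⟩
    rw [hXtp, hXtp, ZMod.val_zero, pow_zero, one_mul, ← tp_neg] at hn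
    exact tp_inj hn
  have hsingle : ∀ j ∉ T, (∀ j' ∉ T, ρ j' = ρ j → j' = j) →
      ∀ᶠ n in (𝒰 : Filter ℕ), SSr (P n) f (s n j) := by
    intro j hj h
    refine hSSr j (ss_of_single D hP (fun h0 => hj ((hmemT j).mpr h0)) ?_)
    rintro ⟨i, j'⟩ hβ
    have h1 : ρ j = ρ j' := (hρeq _ _).mpr ⟨i, hβ⟩
    exact h j' (hTlink h1 hj) h1.symm
  -- the pattern
  choose H0 hH0 using hnear
  have hcb : ∀ j, ∃ b : ℕ, 0 < b ∧ (j ∈ T → ∀ᶠ n in (𝒰 : Filter ℕ), (b : ZMod (m n)) * s n j = 0) := by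
    intro j
    by_cases hj : j ∈ T
    · obtain ⟨b, hb, h⟩ := hconst j hj
      exact ⟨b, hb, fun _ => h⟩
    · exact ⟨1, one_pos, fun h => absurd h hj⟩
  choose b hb hbn using hcb
  have hHb : ∀ j, H0 j ≤ ∑ j, (H0 j + b j) ∧ b j ≤ ∑ j, (H0 j + b j) := by
    intro j
    have := single_le_sum (f := fun j => H0 j + b j) (fun _ _ => Nat.zero_le _) (mem_univ j)
    omega
  have hpat : ∀ᶠ n in (𝒰 : Filter ℕ), Pat (P n) f (∑ j, (H0 j + b j)) (s n) T ρ := by
    have e1 : ∀ᶠ n in (𝒰 : Filter ℕ), ∀ j, j ∈ T → (b j : ZMod (m n)) * s n j = 0 := by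
      rw [eventually_all]
      intro j
      by_cases hj : j ∈ T
      · filter_upwards [hbn j hj] with n hn _ using hn
      · exact Eventually.of_forall fun n h => absurd h hj
    have e2 : ∀ᶠ n in (𝒰 : Filter ℕ), ∀ j, Near (P n) f (H0 j) (s n (ρ j)) (s n j) :=
      eventually_all.mpr hH0
    have e3 : ∀ᶠ n in (𝒰 : Filter ℕ), ∀ j, j ∉ T → (∀ j' ∉ T, ρ j' = ρ j → j' = j) →
        SSr (P n) f (s n j) := by
      rw [eventually_all]
      intro j
      by_cases hj : j ∉ T ∧ ∀ j' ∉ T, ρ j' = ρ j → j' = j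
      · filter_upwards [hsingle j hj.1 hj.2] with n hn _ _ using hn
      · exact Eventually.of_forall fun n h h' => absurd ⟨h, h'⟩ hj
    filter_upwards [e1, e2, e3] with n h1 h2 h3
    exact ⟨fun j hj => ⟨b j, hb j, (hHb j).2, h1 j hj⟩, hout, fun j _ => hρρ j,
      fun j _ => (h2 j).mono (hHb j).1, h3⟩
  have hge : ∀ᶠ n in (𝒰 : Filter ℕ), ∑ j, (H0 j + b j) ≤ n :=
    Filter.Eventually.filter_mono (by
      rw [← Nat.cofinite_eq_atTop]
      exact hyperfilter_le_cofinite) (eventually_ge_atTop _)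
  obtain ⟨n0, hn0⟩ := (hpat.and hge).exists
  have hcard := hno n0 T ρ (hn0.1.mono hn0.2)
  have hci := card_ineq (ρ := ρ) hout (fun j _ => hρρ j)
  -- no constants and no large groups
  have hTe : T = ∅ := by
    by_contra h
    have := hci.2 (Or.inl (nonempty_iff_ne_empty.mpr h))
    omega
  have hthree : ∀ j1 j2 j3, j1 ≠ j2 → j1 ≠ j3 → ρ j1 = ρ j2 → ρ j1 = ρ j3 → j2 = j3 := by
    intro j1 j2 j3 h12 h13 e12 e13
    by_contra h23
    have := hci.2 (Or.inr ⟨j1, by rw [hTe]; simp, j2, by rw [hTe]; simp, j3, by rw [hTe]; simp,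
      h12, h13, h23, e12, e13⟩)
    omega
  -- the involution
  have hμ : ∀ j, ∃ j', ρ j' = ρ j ∧ ((∀ j'', ρ j'' = ρ j → j'' = j) → j' = j) ∧
      (¬ (∀ j'', ρ j'' = ρ j → j'' = j) → j' ≠ j) := by
    intro j
    by_cases h : ∀ j'', ρ j'' = ρ j → j'' = j
    · exact ⟨j, rfl, fun _ => rfl, fun h' => absurd h h'⟩
    · have h' := h
      push Not at h'
      obtain ⟨j'', h1, h2⟩ := h'
      exact ⟨j'', h1, fun h3 => absurd h3 h, fun _ => h2⟩
  choose μ hμ1 hμ2 hμ3 using hμ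
  have hne : ∀ j, μ j ≠ j → μ (μ j) = j := by
    intro j hj
    have h1 : ¬ (∀ j'', ρ j'' = ρ j → j'' = j) := fun h => hj (hμ2 j h)
    have h2 : ¬ (∀ j'', ρ j'' = ρ (μ j) → j'' = μ j) := fun h => hj (h j (hμ1 j).symm).symm
    have h3 := hμ3 _ h2
    by_contra h4
    exact h4 (hthree (μ j) (μ (μ j)) j h3.symm hj (hμ1 _).symm (hμ1 _))
  have hinv : ∀ j, μ (μ j) = j := by
    intro j
    by_cases h : μ j = j
    · rw [h, h]
    · exact hne j h
  have hK0 : ∀ j, D.K (0, j) ≠ 0 := by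
    intro j h
    have := (hmemT j).mpr h
    rw [hTe] at this
    simp at this
  have hfix : ∀ j, ∀ᶠ n in (𝒰 : Filter ℕ), μ j = j → SSr (P n) f (s n j) := by
    intro j
    by_cases h : μ j = j
    · have h1 : ∀ j'', ρ j'' = ρ j → j'' = j := by
        by_contra h'
        exact hμ3 j h' h
      filter_upwards [hsingle j (by rw [hTe]; simp) (fun j' _ => h1 j')] with n hn _ using hn
    · exact Eventually.of_forall fun n h' => absurd h' h
  have hpair : ∀ j, ∀ᶠ n in (𝒰 : Filter ℕ), μ j ≠ j →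
      (∃ e < f, s n (μ j) = -((P n : ZMod (m n)) ^ e * s n j)) ∨
        (SSr (P n) f (s n j) ∧ SSr (P n) f (s n (μ j))) := by
    intro j
    by_cases h : μ j = j
    · exact Eventually.of_forall fun n h' => absurd h h'
    obtain ⟨i0, hi0⟩ := (hρeq j (μ j)).mp (hμ1 j).symm
    rcases pair D hP (j := j) (j' := μ j) (Ne.symm h) (hK0 j) hi0 (by
      rintro ⟨i, j'⟩ hβ
      by_contra hcon
      rw [not_or] at hcon
      have h1 : ρ j = ρ j' := (hρeq _ _).mpr ⟨i, hβ⟩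
      exact hcon.2 (hthree j j' (μ j) (Ne.symm hcon.1) (Ne.symm h) h1 (hμ1 j).symm)) with
      ⟨e, he⟩ | ⟨h1, h2⟩
    · filter_upwards [he] with n hn _
      left
      rw [hXtp, hXtp, ZMod.val_zero, pow_zero, one_mul, ← add_eq_zero_iff_eq_neg, ← tp_add,
        tp_eq_zero] at hn
      have hf0 : 0 < f := NeZero.pos f
      by_cases he0 : e.val = 0
      · refine ⟨0, hf0, ?_⟩
        rw [he0] at hn
        linear_combination hn
      · refine ⟨f - e.val, by omega, ?_⟩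
        have h3 : (P n : ZMod (m n)) ^ (f - e.val) * (P n : ZMod (m n)) ^ e.val = 1 := by
          rw [← pow_add, Nat.sub_add_cancel (ZMod.val_lt e).le, hpf]
        linear_combination (P n : ZMod (m n)) ^ (f - e.val) * hn - s n (μ j) * h3
    · filter_upwards [hSSr j h1, hSSr (μ j) h2] with n h3 h4 _ using Or.inr ⟨h3, h4⟩
  obtain ⟨n, h1, h2⟩ := ((eventually_all.mpr hfix).and (eventually_all.mpr hpair)).exists
  exact hmat n ⟨μ, hinv, h1, h2⟩

end

end Pool.Agent.Q59.TP
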